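import Mathlib

/-!
# Brooks' theorem

`brooks`: a finite graph of maximum degree at most `d + 1`, `d ≥ 2`, without a clique on `d + 2`
vertices is `(d + 1)`-colourable.
-/

set_option autoImplicit false
open Classical

namespace Pool.T9h45.HY.Br

variable {V : Type*} [Fintype V] {d : ℕ}

/-- degree -/
noncomputable def dg {V : Type*} (G : SimpleGraph V) (x : V) : ℕ := (G.neighborSet x).ncard

/-- `c` is a proper colouring on the set `A` -/
def PO {V : Type*} {d : ℕ} (Γ : SimpleGraph V) (A : Set V) (c : V → Fin (d + 1)) : Prop :=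
  ∀ x ∈ A, ∀ y ∈ A, Γ.Adj x y → c x ≠ c y


/-- T26 -/
theorem br_finish (Γ : SimpleGraph V) (hd : ∀ x, dg Γ x ≤ d + 1) (A : Set V) (c : V → Fin (d + 1))
    (hA : PO Γ A c) (z : V) (hz : z ∉ A)
    (h : (∃ y, Γ.Adj z y ∧ y ∉ A) ∨
      (∃ y y', y ≠ y' ∧ y ∈ A ∧ y' ∈ A ∧ Γ.Adj z y ∧ Γ.Adj z y' ∧ c y = c y') ∨ dg Γ z ≤ d) :
    ∃ c', (∀ x ∈ A, c' x = c x) ∧ PO Γ (A ∪ {z}) c' := by
  set N : Finset V := Finset.univ.filter (fun y => Γ.Adj z y) with hN
  have hNc : N.card = dg Γ z := by
    unfold dg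
    have : Γ.neighborSet z = (N : Set V) := by
      ext y; simp [hN]
    rw [this, Set.ncard_coe_finset]
  set NA : Finset V := N.filter (fun y => y ∈ A) with hNA
  have hNAN : NA ⊆ N := Finset.filter_subset _ _
  have hmemN : ∀ y, y ∈ N ↔ Γ.Adj z y := by intro y; simp [hN]
  have hmemNA : ∀ y, y ∈ NA ↔ Γ.Adj z y ∧ y ∈ A := by intro y; simp [hNA, hN]
  have hcard : (NA.image c).card ≤ d := by
    have hd' := hd z
    rcases h with ⟨y, hy1, hy2⟩ | ⟨y, y', hne, hy, hy', a1, a2, hc⟩ | h
    · have h1 : NA ⊆ N.erase y := by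
        intro w hw
        rw [Finset.mem_erase]
        refine ⟨?_, hNAN hw⟩
        rintro rfl
        exact hy2 ((hmemNA _).1 hw).2
      have h2 := Finset.card_le_card h1
      rw [Finset.card_erase_of_mem ((hmemN y).2 hy1)] at h2
      have h3 : (NA.image c).card ≤ NA.card := Finset.card_image_le
      omega
    · have h1 : NA.image c = (NA.erase y').image c := by
        apply le_antisymm
        · intro k hk
          rw [Finset.mem_image] at hk ⊢
          obtain ⟨w, hw, rfl⟩ := hk
          by_cases hwy : w = y'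
          · subst hwy
            exact ⟨y, Finset.mem_erase.2 ⟨hne, (hmemNA y).2 ⟨a1, hy⟩⟩, hc⟩
          · exact ⟨w, Finset.mem_erase.2 ⟨hwy, hw⟩, rfl⟩
        · exact Finset.image_subset_image (Finset.erase_subset _ _)
      rw [h1]
      have h3 : ((NA.erase y').image c).card ≤ (NA.erase y').card := Finset.card_image_le
      rw [Finset.card_erase_of_mem ((hmemNA y').2 ⟨a2, hy'⟩)] at h3
      have h4 := Finset.card_le_card hNAN
      omega
    · have h3 : (NA.image c).card ≤ NA.card := Finset.card_image_le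
      have h4 := Finset.card_le_card hNAN
      omega
  obtain ⟨k, hk⟩ : ∃ k : Fin (d + 1), k ∉ NA.image c := by
    by_contra hcon
    push Not at hcon
    have : NA.image c = Finset.univ := Finset.eq_univ_iff_forall.2 hcon
    rw [this] at hcard
    simp at hcard
  have hk' : ∀ y ∈ A, Γ.Adj z y → c y ≠ k := by
    intro y hy ha he
    exact hk (Finset.mem_image.2 ⟨y, (hmemNA y).2 ⟨ha, hy⟩, he⟩)
  have hne : ∀ x ∈ A, x ≠ z := by
    rintro x hx rfl
    exact hz hx
  refine ⟨Function.update c z k, ?_, ?_⟩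
  · intro x hx
    rw [Function.update_of_ne (hne x hx)]
  · rintro x (hx | hx) y (hy | hy) hxy
    · rw [Function.update_of_ne (hne x hx), Function.update_of_ne (hne y hy)]
      exact hA x hx y hy hxy
    · rw [Set.mem_singleton_iff] at hy
      subst hy
      rw [Function.update_of_ne (hne x hx), Function.update_self]
      exact hk' x hx hxy.symm
    · rw [Set.mem_singleton_iff] at hx
      subst hx
      rw [Function.update_of_ne (hne y hy), Function.update_self]
      exact (hk' y hy hxy).symm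
    · rw [Set.mem_singleton_iff] at hx hy
      subst hx
      subst hy
      exact absurd hxy (Γ.loopless.irrefl _)



/-- T25 -/
theorem br_greedy (Γ : SimpleGraph V) (hd : ∀ x, dg Γ x ≤ d + 1) (A : Set V) (c : V → Fin (d + 1))
    (hA : PO Γ A c) (l : List V) (z : V) (hn : (l ++ [z]).Nodup)
    (hch : List.IsChain Γ.Adj (l ++ [z])) (hdis : ∀ x ∈ l ++ [z], x ∉ A) :
    ∃ c', (∀ x ∈ A, c' x = c x) ∧ PO Γ (A ∪ {x | x ∈ l}) c' := by
  induction l generalizing A c with
  | nil =>
    refine ⟨c, fun _ _ => rfl, ?_⟩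
    have : A ∪ {x | x ∈ ([] : List V)} = A := by
      ext x
      simp
    rw [this]
    exact hA
  | cons x l ih =>
    rw [List.cons_append] at hn hch hdis
    have hxA : x ∉ A := hdis x List.mem_cons_self
    obtain ⟨y, hy, hxy⟩ : ∃ y ∈ l ++ [z], Γ.Adj x y := by
      cases l with
      | nil =>
        refine ⟨z, by simp, ?_⟩
        simp only [List.nil_append] at hch
        exact (List.isChain_cons_cons.1 hch).1
      | cons w l =>
        refine ⟨w, by simp, ?_⟩
        rw [List.cons_append] at hch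
        exact (List.isChain_cons_cons.1 hch).1
    have hyA : y ∉ A := hdis y (List.mem_cons_of_mem _ hy)
    obtain ⟨c1, hc1, hc1'⟩ := br_finish Γ hd A c hA x hxA (Or.inl ⟨y, hxy, hyA⟩)
    have hn' := (List.nodup_cons.1 hn)
    obtain ⟨c2, hc2, hc2'⟩ := ih (A ∪ {x}) c1 hc1' hn'.2 hch.tail (by
      rintro w hw (h | h)
      · exact hdis w (List.mem_cons_of_mem _ hw) h
      · rw [Set.mem_singleton_iff] at h
        subst h
        exact hn'.1 hw)
    refine ⟨c2, ?_, ?_⟩
    · intro w hw
      rw [hc2 w (Or.inl hw), hc1 w hw]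
    · have : A ∪ {w | w ∈ x :: l} = A ∪ {x} ∪ {w | w ∈ l} := by
        ext w
        simp only [Set.mem_union, Set.mem_ofPred_eq, List.mem_cons, Set.mem_singleton_iff]
        tauto
      rw [this]
      exact hc2'



/-- T27 -/
theorem br_caseA (Γ : SimpleGraph V) (hd : ∀ x, dg Γ x ≤ d + 1) (A : Set V) (v1 v2 v3 : V)
    (l : List V) (hn : (v1 :: v2 :: v3 :: l).Nodup)
    (hch : List.IsChain Γ.Adj (v1 :: v2 :: v3 :: l))
    (hA : ∀ x, x ∈ A ↔ x ∈ v1 :: v2 :: v3 :: l) (h13 : ¬ Γ.Adj v1 v3)
    (ht : ∃ t ∈ l, Γ.Adj v2 t) : ∃ c : V → Fin (d + 1), PO Γ A c := by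
  obtain ⟨t, htl, h2t⟩ := ht
  obtain ⟨l1, l2, rfl⟩ := List.append_of_mem htl
  have c12 : Γ.Adj v1 v2 := (List.isChain_cons_cons.1 hch).1
  have ch2 := (List.isChain_cons_cons.1 hch).2
  have c23 : Γ.Adj v2 v3 := (List.isChain_cons_cons.1 ch2).1
  have ch3 := (List.isChain_cons_cons.1 ch2).2
  have ch4 : List.IsChain Γ.Adj (l1 ++ t :: l2) := ch3.tail
  have n1 := List.nodup_cons.1 hn
  have n2 := List.nodup_cons.1 n1.2
  have n3 := List.nodup_cons.1 n2.2
  have hnl : (l1 ++ t :: l2).Nodup := n3.2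
  -- the first two vertices
  have hP0 : PO Γ ({v1, v3} : Set V) (fun _ => (0 : Fin (d + 1))) := by
    rintro x hx y hy hxy
    exfalso
    rw [Set.mem_insert_iff, Set.mem_singleton_iff] at hx hy
    rcases hx with rfl | rfl <;> rcases hy with rfl | rfl
    · exact Γ.loopless.irrefl _ hxy
    · exact h13 hxy
    · exact h13 hxy.symm
    · exact Γ.loopless.irrefl _ hxy
  have e1 : l1 ++ t :: l2 = (l1 ++ [t]) ++ l2 := by simp
  have ch5 : List.IsChain Γ.Adj (l1 ++ [t]) := by
    rw [e1] at ch4
    exact ch4.left_of_append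
  have nn5 : (l1 ++ [t]).Nodup := by
    rw [e1] at hnl
    exact hnl.of_append_left
  have hdis1 : ∀ x ∈ l1 ++ [t], x ∉ ({v1, v3} : Set V) := by
    intro x hx hx'
    have hx2 : x ∈ l1 ++ t :: l2 := by
      rw [e1]; exact List.mem_append_left _ hx
    rw [Set.mem_insert_iff, Set.mem_singleton_iff] at hx'
    rcases hx' with rfl | rfl
    · exact n1.1 (List.mem_cons_of_mem _ (List.mem_cons_of_mem _ hx2))
    · exact n3.1 hx2
  obtain ⟨c1, hc1, hc1'⟩ := br_greedy Γ hd _ _ hP0 l1 t nn5 ch5 hdis1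
  -- the second path
  have ch6 : List.IsChain Γ.Adj (t :: l2) := ch4.right_of_append
  have ch7 : List.IsChain Γ.Adj ((l2.reverse ++ [t]) ++ [v2]) := by
    have h1 : List.IsChain Γ.Adj (v2 :: t :: l2) := List.isChain_cons_cons.2 ⟨h2t, ch6⟩
    have h2 : ((l2.reverse ++ [t]) ++ [v2]) = (v2 :: t :: l2).reverse := by simp
    rw [h2, List.isChain_reverse]
    exact h1.imp (fun a b h => h.symm)
  have nn7 : ((l2.reverse ++ [t]) ++ [v2]).Nodup := by
    have h2 : ((l2.reverse ++ [t]) ++ [v2]) = (v2 :: t :: l2).reverse := by simp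
    rw [h2, List.nodup_reverse, List.nodup_cons]
    refine ⟨?_, (hnl.of_append_right)⟩
    intro h
    exact n2.1 (List.mem_cons_of_mem _ (List.mem_append_right _ h))
  have hdis2 : ∀ x ∈ (l2.reverse ++ [t]) ++ [v2], x ∉ ({v1, v3} : Set V) ∪ {x | x ∈ l1} := by
    intro x hx hx'
    have hx2 : x = v2 ∨ x ∈ t :: l2 := by
      simp only [List.mem_append, List.mem_reverse, List.mem_singleton] at hx
      rcases hx with (h | h) | h
      · exact Or.inr (List.mem_cons_of_mem _ h)
      · exact Or.inr (h ▸ List.mem_cons_self)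
      · exact Or.inl h
    rcases hx2 with rfl | hx2
    · rcases hx' with h | h
      · rw [Set.mem_insert_iff, Set.mem_singleton_iff] at h
        rcases h with rfl | rfl
        · exact n1.1 List.mem_cons_self
        · exact n2.1 List.mem_cons_self
      · exact n2.1 (List.mem_cons_of_mem _ (List.mem_append_left _ h))
    · rcases hx' with h | h
      · rw [Set.mem_insert_iff, Set.mem_singleton_iff] at h
        rcases h with rfl | rfl
        · exact n1.1 (List.mem_cons_of_mem _ (List.mem_cons_of_mem _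
            (List.mem_append_right _ hx2)))
        · exact n3.1 (List.mem_append_right _ hx2)
      · exact (List.disjoint_of_nodup_append hnl) h hx2
  obtain ⟨c2, hc2, hc2'⟩ := br_greedy Γ hd _ _ hc1' (l2.reverse ++ [t]) v2 nn7 ch7 hdis2
  -- the last vertex
  have hv1 : v1 ∈ ({v1, v3} : Set V) := by simp
  have hv3 : v3 ∈ ({v1, v3} : Set V) := by simp
  have hcol : c2 v1 = c2 v3 := by
    rw [hc2 v1 (Or.inl hv1), hc2 v3 (Or.inl hv3), hc1 v1 hv1, hc1 v3 hv3]
  have hv2 : v2 ∉ ({v1, v3} : Set V) ∪ {x | x ∈ l1} ∪ {x | x ∈ l2.reverse ++ [t]} := by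
    rintro (h | h)
    · exact hdis2 v2 (by simp) h
    · have h' : v2 ∈ l2.reverse ++ [t] := h
      simp only [List.mem_append, List.mem_reverse, List.mem_singleton] at h'
      apply n2.1
      refine List.mem_cons_of_mem _ (List.mem_append_right _ ?_)
      rcases h' with h' | h'
      · exact List.mem_cons_of_mem _ h'
      · exact h' ▸ List.mem_cons_self
  have hne13 : v1 ≠ v3 := by
    rintro rfl
    exact n1.1 (by simp)
  obtain ⟨c3, hc3, hc3'⟩ := br_finish Γ hd _ _ hc2' v2 hv2
    (Or.inr (Or.inl ⟨v1, v3, hne13, Or.inl (Or.inl hv1), Or.inl (Or.inl hv3), c12.symm, c23, hcol⟩))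
  refine ⟨c3, ?_⟩
  have hAe : A = ({v1, v3} : Set V) ∪ {x | x ∈ l1} ∪ {x | x ∈ l2.reverse ++ [t]} ∪ {v2} := by
    ext x
    rw [hA x]
    simp only [List.mem_cons, List.mem_append, Set.mem_union, Set.mem_insert_iff,
      Set.mem_singleton_iff, Set.mem_ofPred_eq, List.mem_reverse, List.not_mem_nil, or_false]
    tauto
  rw [hAe]
  exact hc3'


namespace T28

/-- last place where a property holds -/
theorem split {α : Type*} (Q : α → Prop) : ∀ (P : List α), (∃ x ∈ P, Q x) →
    (∀ b ∈ P.getLast?, ¬ Q b) → ∃ (L1 : List α) (p q : α) (L2 : List α),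
      P = L1 ++ p :: q :: L2 ∧ Q p ∧ ¬ Q q
  | [], ⟨x, hx, _⟩, _ => by simp at hx
  | [x], ⟨y, hy, hQ⟩, hl => by
    simp only [List.mem_singleton] at hy
    subst hy
    exact absurd hQ (hl y (by simp))
  | x :: y :: P', ⟨z, hz, hQ⟩, hl => by
    by_cases h : ∃ w ∈ y :: P', Q w
    · obtain ⟨L1, p, q, L2, h1, h2, h3⟩ := split Q (y :: P') h (fun b hb => hl b (by
        rw [List.getLast?_cons_cons]
        exact hb))
      exact ⟨x :: L1, p, q, L2, by rw [h1]; rfl, h2, h3⟩
    · push Not at h
      refine ⟨[], x, y, P', rfl, ?_, h y (by simp)⟩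
      rw [List.mem_cons] at hz
      rcases hz with rfl | hz
      · exact hQ
      · exact absurd hQ (h z hz)

end T28

open T28


/-- T28 -/
theorem br_caseB (Γ : SimpleGraph V) (hd : ∀ x, dg Γ x ≤ d + 1) (A : Set V) (a b : V) (l : List V)
    (hn : (a :: (l ++ [b])).Nodup) (hch : List.IsChain Γ.Adj (a :: (l ++ [b])))
    (hL : ∀ x ∈ a :: (l ++ [b]), x ∈ A) (hcl : Γ.Adj b a)
    (hb : ∀ y ∈ A, Γ.Adj b y → y ∈ a :: (l ++ [b]))
    (hu : ∃ x ∈ a :: (l ++ [b]), ∃ y ∈ A, y ∉ a :: (l ++ [b]) ∧ Γ.Adj x y)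
    (hc : ∃ c : V → Fin (d + 1), PO Γ (A \ {x | x ∈ a :: (l ++ [b])}) c) : ∃ c : V → Fin (d + 1), PO Γ A c := by
  obtain ⟨c0, hc0⟩ := hc
  have hlast : (a :: (l ++ [b])).getLast? = some b := by
    rw [← List.cons_append, List.getLast?_append]
    simp
  have hhead : (a :: (l ++ [b])).head? = some a := rfl
  obtain ⟨L1, p, q, L2, hP, ⟨u, huA, huP, hpu⟩, hq⟩ :=
    split (fun x => ∃ y ∈ A, y ∉ a :: (l ++ [b]) ∧ Γ.Adj x y) (a :: (l ++ [b])) hu (by
      intro z hz
      rw [hlast] at hz
      simp only [Option.mem_def, Option.some.injEq] at hz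
      subst hz
      rintro ⟨y, h1, h2, h3⟩
      exact h2 (hb y h1 h3))
  push Not at hq
  generalize a :: (l ++ [b]) = P at *
  have hqP : q ∈ P := by rw [hP]; simp
  have hpP : p ∈ P := by rw [hP]; simp
  have hpq : p ≠ q := by
    rintro rfl
    rw [hP] at hn
    have := hn.of_append_right
    simp at this
  rw [hP] at hch
  obtain ⟨ch1, hadj, ch2⟩ := List.isChain_append_cons_cons.1 hch
  -- colour `q`
  set c1 : V → Fin (d + 1) := Function.update c0 q (c0 u) with hc1
  have hne : ∀ x ∈ A \ {x | x ∈ P}, x ≠ q := by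
    rintro x hx rfl
    exact hx.2 hqP
  have hA1 : PO Γ ((A \ {x | x ∈ P}) ∪ {q}) c1 := by
    rintro x (hx | hx) y (hy | hy) hxy
    · rw [hc1, Function.update_of_ne (hne x hx), Function.update_of_ne (hne y hy)]
      exact hc0 x hx y hy hxy
    · rw [Set.mem_singleton_iff] at hy
      subst hy
      exact absurd hxy.symm (hq x hx.1 hx.2)
    · rw [Set.mem_singleton_iff] at hx
      subst hx
      exact absurd hxy (hq y hy.1 hy.2)
    · rw [Set.mem_singleton_iff] at hx hy
      subst hx
      subst hy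
      exact absurd hxy (Γ.loopless.irrefl _)
  -- the greedy list
  have hchain : List.IsChain Γ.Adj ((L2 ++ L1) ++ [p]) := by
    rw [List.append_assoc, List.isChain_append]
    refine ⟨ch2.tail, ch1, ?_⟩
    intro x hx y hy
    have e1 : P.getLast? = some x := by
      rw [hP, show L1 ++ p :: q :: L2 = (L1 ++ [p, q]) ++ L2 by simp, List.getLast?_append]
      rw [Option.mem_def] at hx
      rw [hx]
      rfl
    have e2 : P.head? = some y := by
      rw [hP, show L1 ++ p :: q :: L2 = (L1 ++ [p]) ++ (q :: L2) by simp, List.head?_append]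
      rw [Option.mem_def] at hy
      rw [hy]
      rfl
    rw [hlast] at e1
    rw [hhead] at e2
    simp only [Option.some.injEq] at e1 e2
    subst e1
    subst e2
    exact hcl
  have hperm : (L1 ++ p :: q :: L2).Perm (q :: ((L2 ++ L1) ++ [p])) := by
    calc (L1 ++ p :: q :: L2) = (L1 ++ [p]) ++ (q :: L2) := by simp
      _ |>.Perm ((q :: L2) ++ (L1 ++ [p])) := List.perm_append_comm
      _ = q :: ((L2 ++ L1) ++ [p]) := by simp
  have hn2 : (q :: ((L2 ++ L1) ++ [p])).Nodup := by
    rw [hP] at hn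
    exact hperm.nodup_iff.1 hn
  rw [List.nodup_cons] at hn2
  have hmem : ∀ x, x ∈ P ↔ x = q ∨ x ∈ (L2 ++ L1) ++ [p] := by
    intro x
    rw [hP, hperm.mem_iff, List.mem_cons]
  have hdis : ∀ x ∈ (L2 ++ L1) ++ [p], x ∉ (A \ {x | x ∈ P}) ∪ {q} := by
    rintro x hx (h | h)
    · exact h.2 ((hmem x).2 (Or.inr hx))
    · rw [Set.mem_singleton_iff] at h
      subst h
      exact hn2.1 hx
  obtain ⟨c2, h21, h22⟩ := br_greedy Γ hd _ c1 hA1 (L2 ++ L1) p hn2.2 hchain hdis
  have huq : u ≠ q := by
    rintro rfl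
    exact huP hqP
  obtain ⟨c3, h31, h32⟩ := br_finish Γ hd _ c2 h22 p (by
      rintro (h | h)
      · exact hdis p (by simp) h
      · have := (List.nodup_append.1 hn2.2).2.2 p h p (by simp)
        exact this rfl) (Or.inr (Or.inl ⟨u, q, huq, Or.inl (Or.inl ⟨huA, huP⟩),
      Or.inl (Or.inr rfl), hpu, hadj, by
        rw [h21 u (Or.inl ⟨huA, huP⟩), h21 q (Or.inr rfl), hc1, Function.update_self,
          Function.update_of_ne huq]⟩))
  have hsub : ∀ x ∈ A, x ∈ (((A \ {x | x ∈ P}) ∪ {q}) ∪ {x | x ∈ L2 ++ L1}) ∪ {p} := by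
    intro x hx
    by_cases hxP : x ∈ P
    · rcases (hmem x).1 hxP with h | h
      · exact Or.inl (Or.inl (Or.inr h))
      · rw [List.mem_append] at h
        rcases h with h | h
        · exact Or.inl (Or.inr h)
        · exact Or.inr (by simpa using h)
    · exact Or.inl (Or.inl (Or.inl ⟨hx, hxP⟩))
  exact ⟨c3, fun x hx y hy => h32 x (hsub x hx) y (hsub y hy)⟩



/-- T29 -/
theorem br_maxpath (Γ : SimpleGraph V) (A : Set V) (l0 : List V) (hne : l0 ≠ [])
    (hn : l0.Nodup) (hch : List.IsChain Γ.Adj l0) (hA : ∀ x ∈ l0, x ∈ A) :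
    ∃ (L : List V) (b : V), (L ++ [b]).Nodup ∧ List.IsChain Γ.Adj (L ++ [b]) ∧
      l0 <+: (L ++ [b]) ∧ (∀ x ∈ L ++ [b], x ∈ A) ∧ ∀ y ∈ A, Γ.Adj b y → y ∈ L ++ [b] := by
  -- lengths of admissible lists
  let P : ℕ → Prop := fun n => ∃ l : List V, l.length = n ∧ l.Nodup ∧ List.IsChain Γ.Adj l ∧
    l0 <+: l ∧ ∀ x ∈ l, x ∈ A
  have hP0 : P l0.length := ⟨l0, rfl, hn, hch, List.prefix_refl l0, hA⟩
  have hb : ∀ n, P n → n ≤ Fintype.card V := by
    rintro n ⟨l, rfl, hl, -⟩
    exact hl.length_le_card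
  have hmax : P (Nat.findGreatest P (Fintype.card V)) :=
    Nat.findGreatest_spec (hb _ hP0) hP0
  obtain ⟨l, hlen, hl, hlc, hlp, hlA⟩ := hmax
  have hlne : l ≠ [] := by
    rintro rfl
    exact hne (List.prefix_nil.mp hlp)
  have hdec : l.dropLast ++ [l.getLast hlne] = l := List.dropLast_append_getLast hlne
  refine ⟨l.dropLast, l.getLast hlne, ?_, ?_, ?_, ?_, ?_⟩
  · rw [hdec]; exact hl
  · rw [hdec]; exact hlc
  · rw [hdec]; exact hlp
  · rw [hdec]; exact hlA
  · rw [hdec]
    intro y hy hadj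
    by_contra hyl
    have hP : P (l ++ [y]).length := by
      refine ⟨l ++ [y], rfl, ?_, ?_, ?_, ?_⟩
      · rw [List.nodup_append]
        refine ⟨hl, List.nodup_singleton y, ?_⟩
        intro a ha b hb
        rw [List.mem_singleton] at hb
        rintro rfl
        exact hyl (hb ▸ ha)
      · rw [List.isChain_append]
        refine ⟨hlc, List.isChain_singleton y, ?_⟩
        intro x hx z hz
        rw [List.getLast?_eq_getLast_of_ne_nil hlne] at hx
        simp only [Option.mem_def, Option.some.injEq] at hx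
        simp only [List.head?_cons, Option.mem_def, Option.some.injEq] at hz
        subst hx; subst hz
        exact hadj
      · exact hlp.trans (List.prefix_append l [y])
      · intro x hx
        rw [List.mem_append, List.mem_singleton] at hx
        rcases hx with hx | hx
        · exact hlA x hx
        · exact hx ▸ hy
    have h1 : (l ++ [y]).length ≤ Nat.findGreatest P (Fintype.card V) :=
      Nat.le_findGreatest (hb _ hP) hP
    rw [← hlen, List.length_append, List.length_singleton] at h1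
    omega




namespace T30

omit [Fintype V] in
theorem split_first (p : V → Prop) : ∀ (L : List V), (∃ x ∈ L, p x) →
    ∃ L1 a l, L = L1 ++ a :: l ∧ p a ∧ ∀ x ∈ L1, ¬ p x
  | [], h => by simp at h
  | x :: L, h => by
    by_cases hx : p x
    · exact ⟨[], x, L, rfl, hx, by simp⟩
    · have h' : ∃ y ∈ L, p y := by
        obtain ⟨y, hy, hy'⟩ := h
        rcases List.mem_cons.1 hy with rfl | hy
        · exact absurd hy' hx
        · exact ⟨y, hy, hy'⟩
      obtain ⟨L1, a, l, h1, h2, h3⟩ := split_first p L h'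
      refine ⟨x :: L1, a, l, by rw [h1, List.cons_append], h2, fun y hy => ?_⟩
      rcases List.mem_cons.1 hy with rfl | hy
      · exact hx
      · exact h3 y hy

theorem exists_nonadj (Γ : SimpleGraph V) (hk : Γ.CliqueFree (d + 2)) (v : V) (hv : dg Γ v = d + 1) :
    ∃ x y, x ≠ y ∧ Γ.Adj v x ∧ Γ.Adj v y ∧ ¬ Γ.Adj x y := by
  by_contra hcon
  push Not at hcon
  set N : Finset V := Finset.univ.filter (fun x => Γ.Adj v x) with hN
  have hc : N.card = d + 1 := by
    rw [← hv]
    unfold dg
    rw [← Set.ncard_coe_finset]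
    congr 1
    ext x
    simp [hN]
  have h1 : Γ.IsNClique (d + 1) N := by
    refine ⟨fun x hx y hy hne => ?_, hc⟩
    have hx' : Γ.Adj v x := by simpa [hN] using hx
    have hy' : Γ.Adj v y := by simpa [hN] using hy
    exact hcon x y hne hx' hy'
  have h2 : Γ.IsNClique (d + 1 + 1) (insert v N) := h1.insert fun x hx => by simpa [hN] using hx
  exact hk _ h2

end T30

theorem brooks (hd2 : 2 ≤ d) (Γ : SimpleGraph V) (hd : ∀ x, dg Γ x ≤ d + 1) (hk : Γ.CliqueFree (d + 2)) :
    ∃ c : V → Fin (d + 1), ∀ x y, Γ.Adj x y → c x ≠ c y := by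
  have key : ∀ (n : ℕ) (A : Set V), A.ncard = n → ∃ c : V → Fin (d + 1), PO Γ A c := by
    intro n
    induction n using Nat.strong_induction_on with
    | _ n ih =>
    intro A hA
    have ih' : ∀ B : Set V, B.ncard < A.ncard → ∃ c : V → Fin (d + 1), PO Γ B c := fun B hB =>
      ih B.ncard (hA ▸ hB) B rfl
    by_cases hne : A.Nonempty
    swap
    · rw [Set.not_nonempty_iff_eq_empty] at hne
      subst hne
      exact ⟨fun _ => 0, fun x hx => absurd hx (Set.notMem_empty x)⟩
    by_cases h1 : ∃ v ∈ A, (∃ y, Γ.Adj v y ∧ y ∉ A) ∨ dg Γ v ≤ d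
    · obtain ⟨v, hv, hv'⟩ := h1
      obtain ⟨c, hc⟩ := ih' (A \ {v}) (Set.ncard_sdiff_singleton_lt_of_mem hv)
      obtain ⟨c', -, hc'⟩ := br_finish Γ hd (A \ {v}) c hc v (fun h => h.2 rfl) (by
        rcases hv' with ⟨y, hy, hy'⟩ | h
        · exact Or.inl ⟨y, hy, fun h => hy' h.1⟩
        · exact Or.inr (Or.inr h))
      refine ⟨c', ?_⟩
      rwa [Set.sdiff_union_self, Set.union_eq_self_of_subset_right
        (Set.singleton_subset_iff.2 hv)] at hc'
    · push Not at h1
      have hcl : ∀ v ∈ A, ∀ y, Γ.Adj v y → y ∈ A := fun v hv y hy => by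
        by_contra h
        exact h ((h1 v hv).1 y hy)
      have hdg : ∀ v ∈ A, dg Γ v = d + 1 := fun v hv =>
        le_antisymm (hd v) (h1 v hv).2
      obtain ⟨v2, hv2⟩ := hne
      obtain ⟨v1, v3, h13, ha1, ha3, hna⟩ := T30.exists_nonadj Γ hk v2 (hdg v2 hv2)
      have hv1 := hcl v2 hv2 v1 ha1
      have hv3 := hcl v2 hv2 v3 ha3
      obtain ⟨L, b, hn, hch, hpre, hLA, hb⟩ := br_maxpath Γ A [v1, v2, v3] (by simp)
        (by simp [ha1.ne', h13, ha3.ne]) (by simp [ha1.symm, ha3])
        (by simp [hv1, hv2, hv3])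
      have hbA : b ∈ A := hLA b (by simp)
      have hbn : ∃ x ∈ L, Γ.Adj b x := by
        have h2 : 0 < (Γ.neighborSet b).ncard := by
          have := hdg b hbA
          unfold dg at this
          omega
        obtain ⟨x, hx⟩ := (Set.ncard_pos (Set.toFinite _)).1 h2
        have hx' : Γ.Adj b x := hx
        have h3 := hb x (hcl b hbA x hx') hx'
        rw [List.mem_append, List.mem_singleton] at h3
        rcases h3 with h3 | h3
        · exact ⟨x, h3, hx'⟩
        · exact absurd h3 hx'.ne'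
      obtain ⟨L1, a, l, hL, hba, hL1⟩ := T30.split_first (fun x => Γ.Adj b x) L hbn
      have hP : L ++ [b] = L1 ++ (a :: (l ++ [b])) := by
        rw [hL]
        simp
      rw [hP] at hn hch hpre hLA hb
      obtain ⟨-, hCn, hdis⟩ := List.nodup_append.1 hn
      have hCch : List.IsChain Γ.Adj (a :: (l ++ [b])) := (List.isChain_append.1 hch).2.1
      have hCA : ∀ x ∈ a :: (l ++ [b]), x ∈ A := fun x hx => hLA x (List.mem_append_right _ hx)
      have hbC : ∀ y ∈ A, Γ.Adj b y → y ∈ a :: (l ++ [b]) := by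
        intro y hy hby
        rcases List.mem_append.1 (hb y hy hby) with h | h
        · exact absurd hby (hL1 y h)
        · exact h
      have hbmem : b ∈ a :: (l ++ [b]) := by simp
      have hlt : (A \ {x | x ∈ a :: (l ++ [b])}).ncard < A.ncard := by
        apply Set.ncard_lt_ncard _ (Set.toFinite _)
        refine ⟨Set.sdiff_subset, fun h => ?_⟩
        exact (h hbA).2 hbmem
      by_cases hu : ∃ x ∈ a :: (l ++ [b]), ∃ y ∈ A, y ∉ a :: (l ++ [b]) ∧ Γ.Adj x y
      · exact br_caseB Γ hd A a b l hCn hCch hCA hba hbC hu (ih' _ hlt)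
      · push Not at hu
        by_cases hall : ∀ y ∈ A, y ∈ a :: (l ++ [b])
        · -- everything is on the cycle
          have hL1' : L1 = [] := by
            rw [List.eq_nil_iff_forall_not_mem]
            intro x hx
            exact hdis x hx x (hall x (hLA x (List.mem_append_left _ hx))) rfl
          subst hL1'
          rw [List.nil_append] at hpre
          obtain ⟨t, ht⟩ := hpre
          have ht' : a :: (l ++ [b]) = v1 :: v2 :: v3 :: t := by
            rw [← ht]
            simp
          rw [ht'] at hCn hCch hCA hall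
          refine br_caseA Γ hd A v1 v2 v3 t hCn hCch (fun x => ⟨hall x, hCA x⟩) hna ?_
          by_contra hcon
          push Not at hcon
          have hsub : Γ.neighborSet v2 ⊆ {v1, v3} := by
            intro x hx
            have hx' : Γ.Adj v2 x := hx
            have h4 := hall x (hcl v2 hv2 x hx')
            simp only [List.mem_cons] at h4
            rcases h4 with h4 | h4 | h4 | h4
            · exact Or.inl h4
            · exact absurd h4 hx'.ne'
            · exact Or.inr h4
            · exact absurd hx' (hcon x h4)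
          have h5 : (Γ.neighborSet v2).ncard ≤ 2 :=
            (Set.ncard_le_ncard hsub (Set.toFinite _)).trans (Set.ncard_pair h13).le
          have h6 := hdg v2 hv2
          unfold dg at h6
          omega
        · -- the cycle is a union of components
          push Not at hall
          obtain ⟨y0, hy0, hy0'⟩ := hall
          have hlt2 : {x | x ∈ a :: (l ++ [b])}.ncard < A.ncard := by
            apply Set.ncard_lt_ncard _ (Set.toFinite _)
            refine ⟨fun x hx => hCA x hx, fun h => ?_⟩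
            exact hy0' (h hy0)
          obtain ⟨c1, hc1⟩ := ih' _ hlt2
          obtain ⟨c2, hc2⟩ := ih' _ hlt
          refine ⟨fun x => if x ∈ a :: (l ++ [b]) then c1 x else c2 x, ?_⟩
          intro x hx y hy hxy
          by_cases hxC : x ∈ a :: (l ++ [b])
          · have hyC : y ∈ a :: (l ++ [b]) := by
              by_contra h
              exact hu x hxC y hy h hxy
            simp only [if_pos hxC, if_pos hyC]
            exact hc1 x hxC y hyC hxy
          · have hyC : y ∉ a :: (l ++ [b]) := by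
              intro h
              exact hu y h x hx hxC hxy.symm
            simp only [if_neg hxC, if_neg hyC]
            exact hc2 x ⟨hx, hxC⟩ y ⟨hy, hyC⟩ hxy
  obtain ⟨c, hc⟩ := key _ Set.univ rfl
  exact ⟨c, fun x y hxy => hc x (Set.mem_univ x) y (Set.mem_univ y) hxy⟩


end Pool.T9h45.HY.Br
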