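import Pool.Agent.T9h45.HY.Cover
import Pool.Agent.T9h45.HY.Brooks

/-!
# The Havet-Yu conjecture for `p ≥ Δ - 1`
-/

set_option autoImplicit false

namespace Pool.T9h45.HY

open Pool.Q6.CI Pool.Q11.TwoEnd Finset

/-- a total labelling with labels `< N` -/
def Lb {V : Type} (G : SimpleGraph V) (p N : ℕ) : Prop :=
  ∃ (a : V → ℕ) (e : V → V → ℕ), (∀ v, a v < N) ∧ (∀ v w, G.Adj v w → e v w < N) ∧
    (∀ v w, G.Adj v w → e v w = e w v) ∧ (∀ v w, G.Adj v w → a v ≠ a w) ∧
    (∀ u v w, G.Adj u v → G.Adj u w → v ≠ w → e u v ≠ e u w) ∧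
    (∀ v w, G.Adj v w → (p : ℤ) ≤ |(a v : ℤ) - (e v w : ℤ)|)

theorem Lb.toSym2 {V : Type} {G : SimpleGraph V} {p N : ℕ} (h : Lb G p N) :
    ∃ (fV : V → ℕ) (fE : Sym2 V → ℕ),
      (∀ v, fV v < N) ∧ (∀ e ∈ G.edgeSet, fE e < N) ∧
      (∀ u v, G.Adj u v → fV u ≠ fV v) ∧
      (∀ u v w, G.Adj u v → G.Adj u w → v ≠ w → fE s(u, v) ≠ fE s(u, w)) ∧
      (∀ u v, G.Adj u v → (p : ℤ) ≤ |(fV u : ℤ) - (fE s(u, v) : ℤ)|) := by
  classical
  obtain ⟨a, e, h1, h2, h3, h4, h5, h6⟩ := h
  let F : Sym2 V → ℕ := Sym2.lift ⟨fun v w => if G.Adj v w then e v w else 0, fun v w => by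
    show (if G.Adj v w then e v w else 0) = (if G.Adj w v then e w v else 0)
    by_cases hvw : G.Adj v w
    · rw [if_pos hvw, if_pos hvw.symm, h3 v w hvw]
    · rw [if_neg hvw, if_neg fun h => hvw h.symm]⟩
  have hF : ∀ v w, G.Adj v w → F s(v, w) = e v w := by
    intro v w hvw
    simp only [F, Sym2.lift_mk, if_pos hvw]
  refine ⟨a, F, h1, ?_, h4, ?_, ?_⟩
  · intro x hx
    induction x using Sym2.ind with
    | _ v w =>
      rw [hF v w hx]
      exact h2 v w hx
  · intro u v w huv huw hne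
    rw [hF u v huv, hF u w huw]
    exact h5 u v w huv huw hne
  · intro u v huv
    rw [hF u v huv]
    exact h6 u v huv

variable {V : Type}

theorem far {p a b : ℕ} (h : p + a ≤ b) : (p : ℤ) ≤ |(a : ℤ) - (b : ℤ)| := by
  rw [abs_sub_comm]
  refine le_trans ?_ (le_abs_self _)
  omega

/-- a colouring of the vertices with `k` colours and of the edges with `l` colours -/
theorem lab_simple (G : SimpleGraph V) (p k l : ℕ) (hp : 1 ≤ p) (c : V → ℕ) (hck : ∀ v, c v < k)
    (hcp : ∀ v w, G.Adj v w → c v ≠ c w) (he : EC G l) (hk : 1 ≤ k) :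
    Lb G p (p + k - 1 + l) := by
  obtain ⟨e, he⟩ := he
  refine ⟨c, fun v w => p + k - 1 + e v w, ?_, ?_, ?_, hcp, ?_, ?_⟩
  · intro v
    have h1 := hck v
    omega
  · intro v w h
    have := he.lt v w h
    show p + k - 1 + e v w < _
    omega
  · intro v w h
    show p + k - 1 + e v w = p + k - 1 + e w v
    rw [he.symm v w h]
  · intro u v w huv huw hne h
    have h1 : p + k - 1 + e u v = p + k - 1 + e u w := h
    exact hne (he.inj u v w huv huw (by omega))
  · intro v w h
    have h1 := hck v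
    refine far ?_
    show p + c v ≤ p + k - 1 + e v w
    omega

/-- the labelling from the decomposition -/
theorem lab_decomp [Fintype V] (G : SimpleGraph V) (p : ℕ) (hp : 3 ≤ p)
    (hc : ∃ c : V → ℕ, (∀ v, c v ≤ p) ∧ ∀ v w, G.Adj v w → c v ≠ c w)
    (hD : ∀ v, dg G v ≤ p + 1) : Lb G p (3 * p + 1) := by
  classical
  obtain ⟨c, hg⟩ := exists_good hc
  obtain ⟨M1, M2, hM1, hM2, hc1, hc2, e, he⟩ := decomp hp hg hD
  let E : V → V → ℕ := fun v w => if M1.Adj v w then 2 * p - 1 else
    if M2.Adj v w then 2 * p - 2 else 2 * p + e v w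
  have hE : ∀ v w, E v w = if M1.Adj v w then 2 * p - 1 else
    if M2.Adj v w then 2 * p - 2 else 2 * p + e v w := fun _ _ => rfl
  refine ⟨c, E, ?_, ?_, ?_, hg.proper, ?_, ?_⟩
  · intro v
    have := hg.le v
    omega
  · intro v w h
    rw [hE]
    split_ifs with h1 h2
    · omega
    · omega
    · have := he.lt v w ⟨h, h1, h2⟩
      omega
  · intro v w h
    rw [hE, hE]
    by_cases h1 : M1.Adj v w
    · rw [if_pos h1, if_pos h1.symm]
    · have h1' : ¬ M1.Adj w v := fun h => h1 h.symm
      rw [if_neg h1, if_neg h1']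
      by_cases h2 : M2.Adj v w
      · rw [if_pos h2, if_pos h2.symm]
      · have h2' : ¬ M2.Adj w v := fun h => h2 h.symm
        rw [if_neg h2, if_neg h2', he.symm v w ⟨h, h1, h2⟩]
  · intro u v w huv huw hne
    rw [hE, hE]
    split_ifs with h1 h2 h3 h4 h5 h6 h7 h8
    · exact absurd (hM1 u v w h1 h2) hne
    · omega
    · omega
    · omega
    · exact absurd (hM2 u v w h4 h6) hne
    · omega
    · omega
    · omega
    · intro h
      exact hne (he.inj u v w ⟨huv, h1, h4⟩ ⟨huw, h7, h8⟩ (by omega))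
  · intro v w h
    rw [hE]
    split_ifs with h1 h2
    · have := hc1 v w h1
      exact far (by omega)
    · have := hc2 v w h2
      exact far (by omega)
    · have := hg.le v
      exact far (by omega)

theorem dg_eq [Fintype V] (G : SimpleGraph V) (v : V) : Br.dg G v = dg G v := by
  classical
  unfold Br.dg dg
  rw [← Set.ncard_coe_finset]
  congr 1
  ext w
  simp

/-- greedy colouring -/
theorem greedy [Fintype V] (G : SimpleGraph V) (D : ℕ) (hD : ∀ v, dg G v ≤ D) :
    ∃ c : V → ℕ, (∀ v, c v < D + 1) ∧ ∀ v w, G.Adj v w → c v ≠ c w := by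
  classical
  have key : ∀ S : Finset V, ∃ c : V → ℕ, (∀ v, c v < D + 1) ∧
      ∀ v ∈ S, ∀ w ∈ S, G.Adj v w → c v ≠ c w := by
    intro S
    induction S using Finset.induction_on with
    | empty => exact ⟨fun _ => 0, fun _ => Nat.succ_pos D, fun v hv => absurd hv (notMem_empty _)⟩
    | insert y S hyS ih =>
      obtain ⟨c, h1, h2⟩ := ih
      have h3 : ∃ a, a ∈ range (D + 1) ∧ a ∉ (univ.filter fun w => G.Adj y w).image c := by
        by_contra hcon
        push Not at hcon
        have h4 : range (D + 1) ⊆ (univ.filter fun w => G.Adj y w).image c := hcon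
        have h5 := (card_le_card h4).trans card_image_le
        have h6 := hD y
        unfold dg at h6
        rw [card_range] at h5
        omega
      obtain ⟨a, ha, ha'⟩ := h3
      rw [mem_range] at ha
      have h4 : ∀ w, G.Adj y w → c w ≠ a := by
        intro w hw h
        exact ha' (mem_image.2 ⟨w, mem_filter.2 ⟨mem_univ _, hw⟩, h⟩)
      refine ⟨Function.update c y a, ?_, ?_⟩
      · intro v
        by_cases hv : v = y
        · rw [hv, Function.update_self]
          exact ha
        · rw [Function.update_of_ne hv]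
          exact h1 v
      · intro v hv w hw hvw
        rw [mem_insert] at hv hw
        by_cases hv' : v = y
        · subst hv'
          rw [Function.update_self, Function.update_of_ne hvw.ne']
          exact (h4 w hvw).symm
        · by_cases hw' : w = y
          · subst hw'
            rw [Function.update_self, Function.update_of_ne hvw.ne]
            exact h4 v hvw.symm
          · rw [Function.update_of_ne hv', Function.update_of_ne hw']
            exact h2 v (hv.resolve_left hv') w (hw.resolve_left hw') hvw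
  obtain ⟨c, h1, h2⟩ := key univ
  exact ⟨c, h1, fun v w => h2 v (mem_univ _) w (mem_univ _)⟩

/-- the circular labelling of cliques -/
theorem clique_num {D p M x y : ℕ} (hM : M = D + 2 * p) (hp : 1 ≤ p) (hx : x ≤ D) (hy : y ≤ D) :
    (p : ℤ) ≤ |(x : ℤ) - (((x + y + p) % M : ℕ) : ℤ)| := by
  by_cases h : x + y + p < M
  · rw [Nat.mod_eq_of_lt h]
    exact far (by omega)
  · have h1 : (x + y + p) % M = x + y + p - M := by
      rw [Nat.mod_eq_sub_mod (by omega), Nat.mod_eq_of_lt (by omega)]
    rw [h1]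
    refine le_trans ?_ (le_abs_self _)
    omega

/-- removing the cliques on `Δ + 1` vertices -/
theorem lab_glue [Fintype V] (G : SimpleGraph V) (D p : ℕ) (hp : 1 ≤ p) (hD1 : 1 ≤ D)
    (hD : ∀ v, dg G v ≤ D)
    (h0 : ∀ H : SimpleGraph V, H ≤ G → H.CliqueFree (D + 1) → Lb H p (D + 2 * p)) :
    Lb G p (D + 2 * p) := by
  classical
  let S : V → Prop := fun v => ∃ t : Finset V, G.IsNClique (D + 1) t ∧ v ∈ t
  have hS : ∀ (t : Finset V), G.IsNClique (D + 1) t → ∀ v ∈ t, ∀ w, G.Adj v w → w ∈ t := by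
    intro t ht v hv w hvw
    by_contra hw
    have h1 : insert w (t.erase v) ⊆ univ.filter fun w => G.Adj v w := by
      intro x hx
      rw [mem_insert, mem_erase] at hx
      rw [mem_filter]
      rcases hx with rfl | hx
      · exact ⟨mem_univ _, hvw⟩
      · exact ⟨mem_univ _, ht.1 hv hx.2 (Ne.symm hx.1)⟩
    have h2 := card_le_card h1
    rw [card_insert_of_notMem (fun h => hw (mem_erase.1 h).2), card_erase_of_mem hv, ht.2] at h2
    have h3 := hD v
    unfold dg at h3
    omega
  have hSadj : ∀ v w, G.Adj v w → S v → S w := by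
    rintro v w hvw ⟨t, ht, hv⟩
    exact ⟨t, ht, hS t ht v hv w hvw⟩
  let H : SimpleGraph V :=
    { Adj := fun v w => G.Adj v w ∧ ¬ S v
      symm := ⟨fun v w h => ⟨h.1.symm, fun h' => h.2 (hSadj w v h.1.symm h')⟩⟩
      loopless := ⟨fun _ h => h.1.ne rfl⟩ }
  have hHG : H ≤ G := fun _ _ h => h.1
  have hHfree : H.CliqueFree (D + 1) := by
    intro t ht
    have h1 : G.IsNClique (D + 1) t := ht.mono hHG
    have h2 : 1 < t.card := by rw [ht.2]; omega
    obtain ⟨v, hv, w, hw, hne⟩ := one_lt_card.1 h2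
    exact (ht.1 hv hw hne).2 ⟨t, h1, hv⟩
  obtain ⟨a, e, a1, a2, a3, a4, a5, a6⟩ := h0 H hHG hHfree
  obtain ⟨c, hc1, hc2⟩ := greedy G D hD
  set M := D + 2 * p with hM
  let A : V → ℕ := fun v => if S v then c v else a v
  let E : V → V → ℕ := fun v w => if S v then (c v + c w + p) % M else e v w
  have hA1 : ∀ v, S v → A v = c v := fun v hv => if_pos hv
  have hA2 : ∀ v, ¬ S v → A v = a v := fun v hv => if_neg hv
  have hE1 : ∀ v w, S v → E v w = (c v + c w + p) % M := fun v w hv => if_pos hv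
  have hE2 : ∀ v w, ¬ S v → E v w = e v w := fun v w hv => if_neg hv
  have hMpos : 0 < M := by omega
  refine ⟨A, E, ?_, ?_, ?_, ?_, ?_, ?_⟩
  · intro v
    by_cases hv : S v
    · rw [hA1 v hv]
      have := hc1 v
      omega
    · rw [hA2 v hv]
      exact a1 v
  · intro v w h
    by_cases hv : S v
    · rw [hE1 v w hv]
      exact Nat.mod_lt _ hMpos
    · rw [hE2 v w hv]
      exact a2 v w ⟨h, hv⟩
  · intro v w h
    by_cases hv : S v
    · rw [hE1 v w hv, hE1 w v (hSadj v w h hv), add_comm (c v) (c w)]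
    · have hw : ¬ S w := fun h' => hv (hSadj w v h.symm h')
      rw [hE2 v w hv, hE2 w v hw]
      exact a3 v w ⟨h, hv⟩
  · intro v w h
    by_cases hv : S v
    · rw [hA1 v hv, hA1 w (hSadj v w h hv)]
      exact hc2 v w h
    · have hw : ¬ S w := fun h' => hv (hSadj w v h.symm h')
      rw [hA2 v hv, hA2 w hw]
      exact a4 v w ⟨h, hv⟩
  · intro u v w huv huw hne
    by_cases hu : S u
    · rw [hE1 u v hu, hE1 u w hu]
      obtain ⟨t, ht, hut⟩ := hu
      have hv := hS t ht u hut v huv
      have hw := hS t ht u hut w huw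
      have h1 := hc2 v w (ht.1 hv hw hne)
      intro h2
      have h3 : (c u + c v + p) ≡ (c u + c w + p) [MOD M] := h2
      have h4 : c u + c v ≡ c u + c w [MOD M] := Nat.ModEq.add_right_cancel' p h3
      have h5 : c v ≡ c w [MOD M] := Nat.ModEq.add_left_cancel' (c u) h4
      have h6 := hc1 v
      have h7 := hc1 w
      exact h1 (h5.eq_of_lt_of_lt (by omega) (by omega))
    · rw [hE2 u v hu, hE2 u w hu]
      exact a5 u v w ⟨huv, hu⟩ ⟨huw, hu⟩ hne
  · intro v w h
    by_cases hv : S v
    · rw [hA1 v hv, hE1 v w hv]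
      have h1 := hc1 v
      have h2 := hc1 w
      exact clique_num hM hp (by omega) (by omega)
    · rw [hA2 v hv, hE2 v w hv]
      exact a6 v w ⟨h, hv⟩

/-- **The Havet-Yu conjecture for `p ≥ 3`, `p ≥ Δ - 1`** -/
theorem lab_main [Fintype V] (G : SimpleGraph V) (D p : ℕ) (hp : 3 ≤ p) (hDp : D ≤ p + 1)
    (hD : ∀ v, dg G v ≤ D) : Lb G p (D + 2 * p) := by
  classical
  rcases Nat.lt_or_ge D p with h | h
  · obtain ⟨c, hc1, hc2⟩ := greedy G D hD
    obtain ⟨a, e, h1, h2, h3⟩ := lab_simple G p (D + 1) (D + 1) (by omega) c hc1 hc2 (vizing hD)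
      (by omega)
    exact ⟨a, e, fun v => lt_of_lt_of_le (h1 v) (by omega),
      fun v w hvw => lt_of_lt_of_le (h2 v w hvw) (by omega), h3⟩
  · refine lab_glue G D p (by omega) (by omega) hD ?_
    intro H hHG hfree
    have hHD : ∀ v, dg H v ≤ D := fun v => (dg_mono hHG v).trans (hD v)
    obtain ⟨d, hd⟩ : ∃ d, D = d + 1 := ⟨D - 1, by omega⟩
    obtain ⟨c, hc⟩ := Br.brooks (d := d) (by omega) H (fun v => by
      rw [dg_eq, ← hd]
      exact hHD v) (by
      rw [hd] at hfree
      exact hfree)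
    have hc1 : ∀ v w, H.Adj v w → ((c v : Fin (d + 1)) : ℕ) ≠ (c w : ℕ) := fun v w h h' =>
      hc v w h (Fin.ext h')
    rcases Nat.lt_or_ge p D with h' | h'
    · have hDe : D = p + 1 := by omega
      have h5 := lab_decomp H p hp ⟨fun v => (c v : ℕ), fun v => by
        have := (c v).2
        show (c v : ℕ) ≤ p
        omega, hc1⟩ (fun v => (hHD v).trans (by omega))
      have h6 : 3 * p + 1 = D + 2 * p := by omega
      rwa [h6] at h5
    · have hDe : D = p := by omega
      have h5 := lab_simple H p D (D + 1) (by omega) (fun v => (c v : ℕ)) (fun v => by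
        have := (c v).2
        show (c v : ℕ) < D
        omega) hc1 (vizing hHD) (by omega)
      have h6 : p + D - 1 + (D + 1) = D + 2 * p := by omega
      rwa [h6] at h5

end Pool.T9h45.HY
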