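import Pool.Agent.T9h45.HY.Prod

set_option autoImplicit false

/-!
# Circular labellings of products: many factors
-/

namespace Pool.Agent.T9h45.HY

open Finset

theorem prod_core {k : ℕ} {W : Fin k → Type} (H : ∀ i, SimpleGraph (W i))
    (Γ : SimpleGraph (∀ i, W i))
    (hΓ : ∀ x y, Γ.Adj x y → ∃ i, (H i).Adj (x i) (y i) ∧ ∀ j, j ≠ i → x j = y j)
    (i0 : Fin k) (D : Fin k → ℕ) (p : ℕ) (hp : 1 ≤ p) (hup : Up (H i0) (D i0))
    (htwo : ∀ i, i ≠ i0 → Two (H i) (D i) (D i0)) :
    Pool.Agent.R661.HY.Circ Γ p ((∑ i, D i) + 2 * p) := by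
  classical
  obtain ⟨F0, E0, E1, E2, E3⟩ := hup
  have hdata : ∀ i, ∃ (b : W i → ℤ) (s : W i → Bool) (e : W i → W i → ℤ),
      (∀ u v, e u v = e v u) ∧ (i = i0 → (∀ u, b u = 0) ∧ (∀ u, s u = false)) ∧
      (i ≠ i0 → (∀ u v, (H i).Adj u v → (b u ≠ b v ∨ s u ≠ s v) ∧ b u ≤ e u v ∧
        e u v < b u + D i ∧ (s u ≠ s v → |b u - b v| ≤ D i0)) ∧
        (∀ u v w, (H i).Adj u v → (H i).Adj u w → e u v = e u w → v = w)) := by
    intro i
    by_cases hi : i = i0
    · exact ⟨fun _ => 0, fun _ => false, fun _ _ => 0, fun _ _ => rfl,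
        fun _ => ⟨fun _ => rfl, fun _ => rfl⟩, fun h => absurd hi h⟩
    · obtain ⟨b, s, e, h1, h2, h3⟩ := htwo i hi
      exact ⟨b, s, e, h1, fun h => absurd h hi, fun _ => ⟨h2, h3⟩⟩
  choose b s e d1 d2 d3 using hdata
  let D' : Fin k → ℕ := fun i => if i = i0 then 0 else D i
  let off : Fin k → ℕ := fun i => ∑ j ∈ univ.filter (fun j => j < i), D' j
  let F : (∀ i, W i) → ℤ := fun x => F0 (x i0)
  let E : (∀ i, W i) → (∀ i, W i) → ℤ := fun x y => E0 (x i0) (y i0)
  let bb : (∀ i, W i) → ℤ := fun x => ∑ i, b i (x i)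
  let tt : (∀ i, W i) → ℕ := fun x => ∑ i, (if s i (x i) then 1 else 0)
  let ss : (∀ i, W i) → Bool := fun x => decide (tt x % 2 = 1)
  let ee : (∀ i, W i) → (∀ i, W i) → ℤ := fun x y =>
    ∑ i, (if x i = y i then b i (x i) else e i (x i) (y i) + off i)
  have hoff1 : ∀ i j, i < j → off i + D' i ≤ off j := by
    intro i j hij
    have h1 : i ∉ univ.filter (fun l => l < i) := by simp
    have h2 : ∑ l ∈ insert i (univ.filter (fun l => l < i)), D' l = D' i + off i :=
      Finset.sum_insert h1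
    rw [Nat.add_comm, ← h2]
    refine Finset.sum_le_sum_of_subset ?_
    intro l hl
    rw [Finset.mem_insert, Finset.mem_filter] at hl
    rw [Finset.mem_filter]
    rcases hl with rfl | hl
    · exact ⟨Finset.mem_univ _, hij⟩
    · exact ⟨Finset.mem_univ _, hl.2.trans hij⟩
  have hoff2 : ∀ i, off i + D' i ≤ ∑ j, D' j := by
    intro i
    have h1 : i ∉ univ.filter (fun l => l < i) := by simp
    have h2 : ∑ l ∈ insert i (univ.filter (fun l => l < i)), D' l = D' i + off i :=
      Finset.sum_insert h1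
    rw [Nat.add_comm, ← h2]
    exact Finset.sum_le_sum_of_subset (Finset.subset_univ _)
  have hsum : ∑ i, D i = D i0 + ∑ i, D' i := by
    rw [← Finset.add_sum_erase _ _ (Finset.mem_univ i0),
      ← Finset.add_sum_erase _ D' (Finset.mem_univ i0)]
    have e1 : D' i0 = 0 := by simp [D']
    rw [e1, Nat.zero_add]
    congr 1
    refine Finset.sum_congr rfl fun j hj => ?_
    have := Finset.ne_of_mem_erase hj
    simp [D', this]
  have hee : ∀ x y i, (H i).Adj (x i) (y i) → (∀ j, j ≠ i → x j = y j) →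
      ee x y = bb x + (e i (x i) (y i) + off i - b i (x i)) := by
    intro x y i hi hj
    have h1 : ee x y - bb x = e i (x i) (y i) + off i - b i (x i) := by
      simp only [ee, bb]
      rw [← Finset.sum_sub_distrib, Finset.sum_eq_single i]
      · rw [if_neg (fun h => (H i).ne_of_adj hi h)]
      · intro j _ hji
        rw [if_pos (hj j hji), sub_self]
      · intro h
        exact absurd (Finset.mem_univ i) h
    linarith
  have hbb : ∀ x y : ∀ i, W i, ∀ i, (∀ j, j ≠ i → x j = y j) →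
      bb x - bb y = b i (x i) - b i (y i) := by
    intro x y i hj
    simp only [bb]
    rw [← Finset.sum_sub_distrib, Finset.sum_eq_single i]
    · intro j _ hji
      rw [hj j hji, sub_self]
    · intro h
      exact absurd (Finset.mem_univ i) h
  have htt : ∀ x y : ∀ i, W i, ∀ i, (∀ j, j ≠ i → x j = y j) →
      tt x + (if s i (y i) then 1 else 0) = tt y + (if s i (x i) then 1 else 0) := by
    intro x y i hj
    simp only [tt]
    rw [← Finset.add_sum_erase _ _ (Finset.mem_univ i),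
      ← Finset.add_sum_erase _ (fun j => if s j (y j) = true then 1 else 0) (Finset.mem_univ i)]
    have : ∑ j ∈ univ.erase i, (if s j (x j) = true then 1 else 0) =
        ∑ j ∈ univ.erase i, (if s j (y j) = true then 1 else 0) := by
      refine Finset.sum_congr rfl fun j hj' => ?_
      rw [hj j (Finset.ne_of_mem_erase hj')]
    rw [this]
    omega
  have hss1 : ∀ x y : ∀ i, W i, ∀ i, (∀ j, j ≠ i → x j = y j) → s i (x i) = s i (y i) →
      ss x = ss y := by
    intro x y i hj h
    have h1 := htt x y i hj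
    rw [h] at h1
    have h2 : tt x = tt y := by omega
    simp only [ss, h2]
  have hss2 : ∀ x y : ∀ i, W i, ∀ i, (∀ j, j ≠ i → x j = y j) → s i (x i) ≠ s i (y i) →
      ss x ≠ ss y := by
    intro x y i hj h h3
    have h1 := htt x y i hj
    have h4 : tt x % 2 = 1 ↔ tt y % 2 = 1 := by simpa [ss] using h3
    rcases Bool.eq_false_or_eq_true (s i (x i)) with hx | hx <;>
      rcases Bool.eq_false_or_eq_true (s i (y i)) with hy | hy <;> simp [hx, hy] at h h1 <;> omega
  -- directions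
  have hdir0 : ∀ x y, Γ.Adj x y → F x ≠ F y → (H i0).Adj (x i0) (y i0) ∧
      ∀ j, j ≠ i0 → x j = y j := by
    intro x y hxy hF
    obtain ⟨i, hi, hj⟩ := hΓ x y hxy
    by_cases h : i = i0
    · subst h
      exact ⟨hi, hj⟩
    · exact absurd (congrArg F0 (hj i0 (fun h' => h h'.symm))) hF
  have hdir1 : ∀ x y, Γ.Adj x y → F x = F y → ∃ i, i ≠ i0 ∧ (H i).Adj (x i) (y i) ∧
      ∀ j, j ≠ i → x j = y j := by
    intro x y hxy hF
    obtain ⟨i, hi, hj⟩ := hΓ x y hxy
    refine ⟨i, ?_, hi, hj⟩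
    rintro rfl
    exact (E2 _ _ hi).1 hF
  rw [hsum]
  refine core Γ (D i0) (∑ i, D' i) p hp F bb ss E ee (fun x y => E1 _ _) ?_ ?_ ?_ ?_ ?_
  · intro x y
    simp only [ee]
    refine Finset.sum_congr rfl fun i _ => ?_
    by_cases h : x i = y i
    · rw [if_pos h, if_pos h.symm, h]
    · rw [if_neg h, if_neg (fun h' => h h'.symm), d1]
  · intro x y hxy hF
    obtain ⟨hi, hj⟩ := hdir0 x y hxy hF
    obtain ⟨g1, g2, g3⟩ := E2 _ _ hi
    obtain ⟨k1, k2⟩ := d2 i0 rfl
    refine ⟨?_, ?_, g2, g3⟩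
    · have := hbb x y i0 hj
      rw [k1, k1] at this
      linarith
    · exact hss1 x y i0 hj (by rw [k2, k2])
  · intro x y hxy hF
    obtain ⟨i, hne, hi, hj⟩ := hdir1 x y hxy hF
    obtain ⟨k1, k2⟩ := d3 i hne
    obtain ⟨l1, l2, l3, l4⟩ := k1 _ _ hi
    have h1 := hee x y i hi hj
    have h2 := hbb x y i hj
    have h3 := hoff2 i
    have h4 : D' i = D i := by simp [D', hne]
    rw [h4] at h3
    have h5 : ((off i : ℕ) : ℤ) + D i ≤ ((∑ j, D' j : ℕ) : ℤ) := by exact_mod_cast h3
    refine ⟨?_, by omega, by omega, ?_⟩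
    · rcases l1 with l1 | l1
      · left
        intro h
        omega
      · right
        exact hss2 x y i hj l1
    · intro h
      rw [h2]
      refine l4 fun h' => h ?_
      exact hss1 x y i hj h'
  · intro x y z hxy hxz hy hz h
    obtain ⟨hi, hj⟩ := hdir0 x y hxy hy
    obtain ⟨hi', hj'⟩ := hdir0 x z hxz hz
    have h1 := E3 _ _ _ hi hi' h
    funext j
    by_cases h2 : j = i0
    · rw [h2, h1]
    · rw [← hj j h2, ← hj' j h2]
  · intro x y z hxy hxz hy hz h
    obtain ⟨i, hne, hi, hj⟩ := hdir1 x y hxy hy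
    obtain ⟨i', hne', hi', hj'⟩ := hdir1 x z hxz hz
    obtain ⟨k1, k2⟩ := d3 i hne
    obtain ⟨l1, l2, l3, l4⟩ := k1 _ _ hi
    obtain ⟨k1', k2'⟩ := d3 i' hne'
    obtain ⟨l1', l2', l3', l4'⟩ := k1' _ _ hi'
    have h1 := hee x y i hi hj
    have h1' := hee x z i' hi' hj'
    have h4 : D' i = D i := by simp [D', hne]
    have h4' : D' i' = D i' := by simp [D', hne']
    rcases lt_trichotomy i i' with h5 | h5 | h5
    · have h6 := hoff1 i i' h5
      rw [h4] at h6
      have h7 : ((off i : ℕ) : ℤ) + D i ≤ off i' := by exact_mod_cast h6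
      omega
    · subst h5
      have h6 := k2 _ _ _ hi hi' (by omega)
      funext j
      by_cases h2 : j = i
      · rw [h2, h6]
      · rw [← hj j h2, ← hj' j h2]
    · have h6 := hoff1 i' i h5
      rw [h4'] at h6
      have h7 : ((off i' : ℕ) : ℤ) + D i' ≤ off i := by exact_mod_cast h6
      omega

end Pool.Agent.T9h45.HY
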