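import Pool.Agent.T9h45.HY.Fib
import Pool.Agent.R661.HY.Multi
import Pool.Agent.H238R2.HY.Struct

set_option autoImplicit false

/-!
# Circular and linear labellings of fibred graphs
-/

namespace Pool.Agent.T9h45.HY

open Finset

/-- distance at least `p` on the circle with `N` labels -/
def okC (p N : ℕ) (a b : ℕ) : Prop :=
  (p : ℤ) ≤ |(a : ℤ) - (b : ℤ)| ∧ |(a : ℤ) - (b : ℤ)| ≤ (N : ℤ) - p

/-- distance at least `p` on the line -/
def okL (p : ℕ) (a b : ℕ) : Prop := (p : ℤ) ≤ |(a : ℤ) - (b : ℤ)|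

/-- the labels far from `a` and `a + 1` on the circle -/
theorem countC (p N a : ℕ) (hp : 1 ≤ p) (hN : 2 * p ≤ N) (hN2 : 0 < N) :
    N - 2 * p ≤ {l | l < N ∧ okC p N (a % N) l ∧ okC p N ((a + 1) % N) l}.ncard := by
  classical
  have hinj : Set.InjOn (fun j : ℕ => (a + p + 1 + j) % N) (Set.Iio (N - 2 * p)) := by
    intro i hi j hj h
    rw [Set.mem_Iio] at hi hj
    have := Pool.Agent.R661.HY.eq_of_mod h (by omega) (by omega)
    omega
  have hfin : {l | l < N ∧ okC p N (a % N) l ∧ okC p N ((a + 1) % N) l}.Finite :=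
    (Set.finite_Iio N).subset fun l hl => hl.1
  have h1 : (fun j : ℕ => (a + p + 1 + j) % N) '' (Set.Iio (N - 2 * p)) ⊆
      {l | l < N ∧ okC p N (a % N) l ∧ okC p N ((a + 1) % N) l} := by
    rintro l ⟨j, hj, rfl⟩
    rw [Set.mem_Iio] at hj
    refine ⟨Nat.mod_lt _ hN2, ?_, ?_⟩
    · exact Pool.Agent.R661.HY.dist_mod (r := p + 1 + j) (by congr 1; omega) (by omega) (by omega)
        hN2 hp
    · exact Pool.Agent.R661.HY.dist_mod (r := p + j) (by congr 1; omega) (by omega) (by omega)
        hN2 hp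
  have h2 := Set.ncard_le_ncard h1 hfin
  rw [hinj.ncard_image] at h2
  have h3 : (Set.Iio (N - 2 * p)).ncard = N - 2 * p := by
    rw [← Nat.card_coe_set_eq]
    simp
  omega

/-- a bound for the number of labels far from two given labels -/
theorem countL (p N a b k : ℕ) (B : Finset ℕ) (hB : B.card ≤ k)
    (h : ∀ l, ¬ okL p a l ∨ ¬ okL p b l → l < N → l ∈ B) :
    N - k ≤ {l | l < N ∧ okL p a l ∧ okL p b l}.ncard := by
  classical
  have hfin : {l | l < N ∧ okL p a l ∧ okL p b l}.Finite :=
    (Set.finite_Iio N).subset fun l hl => hl.1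
  have h1 : (↑((Finset.range N) \ B) : Set ℕ) ⊆ {l | l < N ∧ okL p a l ∧ okL p b l} := by
    intro l hl
    rw [Finset.mem_coe, Finset.mem_sdiff, Finset.mem_range] at hl
    refine ⟨hl.1, ?_, ?_⟩
    · by_contra h2
      exact hl.2 (h l (Or.inl h2) hl.1)
    · by_contra h2
      exact hl.2 (h l (Or.inr h2) hl.1)
  have h2 := Set.ncard_le_ncard h1 hfin
  rw [Set.ncard_coe_finset] at h2
  have h3 := Finset.le_card_sdiff B (Finset.range N)
  rw [Finset.card_range] at h3
  omega

/-- the hypotheses on a fibred graph: `t` is the projection, `s` gives the sides, `d` bounds the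
number of neighbours in the own fibre -/
structure Fibred {V Y : Type} (G : SimpleGraph V) (Q : SimpleGraph Y) (t : V → Y) (s : V → Bool)
    (d : ℕ) : Prop where
  h1 : ∀ u v, G.Adj u v → s u = s v → Q.Adj (t u) (t v)
  h1' : ∀ u v w, G.Adj u v → G.Adj u w → s u = s v → s u = s w → t v = t w → v = w
  h2 : ∀ u v, G.Adj u v → s u ≠ s v → t u = t v
  hd : ∀ u, {v | G.Adj u v ∧ s u ≠ s v}.ncard ≤ d

/-- the edge colouring as a function -/
theorem edge_fun {Y : Type} (Q : SimpleGraph Y) (k : ℕ) (h : Q.lineGraph.Colorable k) :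
    ∃ c : Y → Y → ℕ, (∀ u v, c u v = c v u) ∧ (∀ u v, Q.Adj u v → c u v < k) ∧
      (∀ u v w, Q.Adj u v → Q.Adj u w → v ≠ w → c u v ≠ c u w) := by
  classical
  obtain ⟨C⟩ := h
  refine ⟨fun v w => if h : Q.Adj v w then (C ⟨s(v, w), h⟩ : ℕ) else 0, ?_, ?_, ?_⟩
  · intro v w
    by_cases h : Q.Adj v w
    · simp only [h, h.symm, dif_pos]
      have : (⟨s(v, w), h⟩ : Q.edgeSet) = ⟨s(w, v), h.symm⟩ := Subtype.ext Sym2.eq_swap
      rw [this]
    · have h' : ¬ Q.Adj w v := fun h' => h h'.symm
      simp only [dif_neg h, dif_neg h']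
  · intro v w h
    simp only [h, dif_pos]
    exact (C ⟨s(v, w), h⟩).2
  · intro v w w' h h' hne he
    simp only [h, h', dif_pos] at he
    have hadj : Q.lineGraph.Adj ⟨s(v, w), h⟩ ⟨s(v, w'), h'⟩ := by
      rw [SimpleGraph.lineGraph_adj_iff_exists]
      refine ⟨?_, v, by simp, by simp⟩
      intro h2
      have h3 : s(v, w) = s(v, w') := congrArg Subtype.val h2
      rw [Sym2.eq_iff] at h3
      rcases h3 with h3 | h3
      · exact hne h3.2
      · exact hne (h3.2.trans h3.1)
    exact C.valid hadj (Fin.ext he)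

/-- the circular labelling -/
theorem fib_circ {V Y : Type} [Fintype V] [Fintype Y] (G : SimpleGraph V) (Q : SimpleGraph Y)
    (t : V → Y) (s : V → Bool) (D d p k m : ℕ) (hp : 1 ≤ p) (hf : Fibred G Q t s d)
    (hQ : ∀ y, (Q.neighborSet y).ncard ≤ D) (c : Y → Y → ℕ) (hc1 : ∀ u v, c u v = c v u)
    (hc2 : ∀ u v, Q.Adj u v → c u v < k)
    (hc3 : ∀ u v w, Q.Adj u v → Q.Adj u w → v ≠ w → c u v ≠ c u w)
    (hcol : Q.Colorable (2 * m)) (hmk : 2 * m + k ≤ D + d + 2) :
    Pool.Agent.R661.HY.Circ G p (D + d + 2 * p) := by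
  classical
  obtain ⟨C⟩ := hcol
  set N := D + d + 2 * p with hN
  have hm : Nonempty Y → 1 ≤ m := by
    rintro ⟨y⟩
    have := (C y).2
    omega
  let F : Bool → Y → ℕ := fun b y => if b then 2 * ((C y : ℕ) / 2) + (1 - (C y : ℕ) % 2)
    else (C y : ℕ)
  have hCm : ∀ y, (C y : ℕ) < 2 * m := fun y => (C y).2
  have hFm : ∀ b y, F b y < 2 * m := by
    intro b y
    have := hCm y
    cases b
    · simp only [F]
      simp
    · simp only [F, if_true]
      omega
  have hkk : ∀ y y', Q.Adj y y' → 2 * m ≤ N := by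
    intro y y' h
    have := hc2 y y' h
    omega
  -- a colour class may be larger than the number of labels only if there are no edges in `Q`
  rcases Nat.lt_or_ge N (2 * m) with hlt | hge
  · -- no edges in `Q`
    have hno : ∀ y y', ¬ Q.Adj y y' := fun y y' h => by
      have := hkk y y' h
      omega
    obtain ⟨fV, fE, g1, g2, g3, g4, g5⟩ := fib G Q t s D d N (okC p N) (fun b _ => if b then 1 else 0)
      (fun _ _ => 0) (fun _ _ => rfl) (by intro b y; cases b <;> simp <;> omega)
      (fun y y' h => (hno y y' h).elim) (fun b y y' h => (hno y y' h).elim) (by simp)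
      (fun y y' y'' h => (hno y y' h).elim) (fun b y y' h => (hno y y' h).elim)
      (by
        intro y
        have h1 := countC p N 0 hp (by omega) (by omega)
        rw [Nat.mod_eq_of_lt (by omega), Nat.mod_eq_of_lt (by omega)] at h1
        have h2 : D + d ≤ N - 2 * p := by omega
        refine h2.trans (h1.trans (le_of_eq ?_))
        simp)
      hQ hf.h1 hf.h1' hf.h2 hf.hd
    exact ⟨fV, fE, g1, g2, g3, g4, fun u v h => g5 u v h⟩
  obtain ⟨fV, fE, g1, g2, g3, g4, g5⟩ := fib G Q t s D d N (okC p N) F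
    (fun y y' => 2 * m - 1 + p + c y y') (fun y y' => by simp only [hc1 y y'])
    (fun b y => lt_of_lt_of_le (hFm b y) hge)
    (by
      intro y y' h
      have := hc2 y y' h
      have := hm ⟨y⟩
      show 2 * m - 1 + p + c y y' < N
      omega)
    (by
      intro b y y' h
      have h3 : (C y : ℕ) ≠ (C y' : ℕ) := fun h4 => C.valid h (Fin.ext h4)
      cases b
      · simpa [F] using h3
      · simp only [F, if_true]
        omega)
    (by
      intro y
      simp only [F]
      simp
      omega)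
    (by
      intro y y' y'' h h' hne
      have := hc3 y y' y'' h h' hne
      show 2 * m - 1 + p + c y y' ≠ 2 * m - 1 + p + c y y''
      omega)
    (by
      intro b y y' h
      have h3 := hFm b y
      have h4 := hc2 y y' h
      have h5 : (F b y : ℤ) < 2 * m := by exact_mod_cast h3
      have h6 : ((2 * m - 1 + p + c y y' : ℕ) : ℤ) = 2 * m - 1 + p + c y y' := by
        have : 1 ≤ 2 * m := by omega
        push_cast [Nat.cast_sub this]
        ring
      constructor
      · show (p : ℤ) ≤ |(F b y : ℤ) - ((2 * m - 1 + p + c y y' : ℕ) : ℤ)|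
        rw [h6, abs_of_nonpos (by omega)]
        omega
      · show |(F b y : ℤ) - ((2 * m - 1 + p + c y y' : ℕ) : ℤ)| ≤ (N : ℤ) - p
        rw [h6, abs_of_nonpos (by omega)]
        omega)
    (by
      intro y
      have h3 := hFm false y
      have h3' := hFm true y
      rcases Nat.even_or_odd' (C y : ℕ) with ⟨i, hi | hi⟩
      · have h1 := countC p N (2 * i) hp (by omega) (by omega)
        have e1 : F false y = 2 * i := by simp only [F]; simp [hi]
        have e2 : F true y = 2 * i + 1 := by simp only [F, if_true]; omega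
        rw [e1] at h3
        rw [e2] at h3'
        rw [Nat.mod_eq_of_lt (by omega), Nat.mod_eq_of_lt (by omega)] at h1
        rw [e1, e2]
        have h2 : D + d ≤ N - 2 * p := by omega
        exact h2.trans h1
      · have h1 := countC p N (2 * i) hp (by omega) (by omega)
        have e1 : F false y = 2 * i + 1 := by simp only [F]; simp [hi]
        have e2 : F true y = 2 * i := by simp only [F, if_true]; omega
        rw [e1] at h3
        rw [e2] at h3'
        rw [Nat.mod_eq_of_lt (by omega), Nat.mod_eq_of_lt (by omega)] at h1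
        rw [e1, e2]
        have h2 : D + d ≤ N - 2 * p := by omega
        refine h2.trans (h1.trans (le_of_eq ?_))
        congr 1
        ext l
        exact ⟨fun h => ⟨h.1, h.2.2, h.2.1⟩, fun h => ⟨h.1, h.2.2, h.2.1⟩⟩)
    hQ hf.h1 hf.h1' hf.h2 hf.hd
  exact ⟨fV, fE, g1, g2, g3, g4, fun u v h => g5 u v h⟩

end Pool.Agent.T9h45.HY
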