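import Pool.Agent.T9h45.HY.Box

set_option autoImplicit false

/-!
# Linear labellings of fibred graphs
-/

namespace Pool.Agent.T9h45.HY

open Finset

/-- a derangement of `0, …, c - 1` which moves the labels only a little -/
def der (c x : ℕ) : ℕ :=
  if c % 2 = 0 then (if x % 2 = 0 then x + 1 else x - 1)
  else if x = 0 then 1 else if x = 1 then 2 else if x = 2 then 0
  else if x % 2 = 1 then x + 1 else x - 1

theorem der_lt (c x : ℕ) (hc : 2 ≤ c) (hx : x < c) : der c x < c := by
  unfold der
  split_ifs <;> omega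

theorem der_inj (c x y : ℕ) (hxy : x ≠ y) : der c x ≠ der c y := by
  unfold der
  split_ifs <;> omega

theorem der_ne (c x : ℕ) : der c x ≠ x := by
  unfold der
  split_ifs <;> omega

theorem der_cases (c x : ℕ) : (∃ j, (x = j ∧ der c x = j + 1) ∨ (x = j + 1 ∧ der c x = j)) ∨
    (x = 2 ∧ der c x = 0) := by
  unfold der
  split_ifs
  · exact Or.inl ⟨x, Or.inl ⟨rfl, rfl⟩⟩
  · exact Or.inl ⟨x - 1, Or.inr ⟨by omega, rfl⟩⟩
  · exact Or.inl ⟨0, Or.inl ⟨by omega, rfl⟩⟩
  · exact Or.inl ⟨1, Or.inl ⟨by omega, rfl⟩⟩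
  · exact Or.inr ⟨by omega, rfl⟩
  · exact Or.inl ⟨x, Or.inl ⟨rfl, rfl⟩⟩
  · exact Or.inl ⟨x - 1, Or.inr ⟨by omega, rfl⟩⟩

theorem bad_pair (p j : ℕ) (hp : 1 ≤ p) : ∃ B : Finset ℕ, B.card ≤ 2 * p ∧
    ∀ l, ¬ okL p j l ∨ ¬ okL p (j + 1) l → l ∈ B := by
  refine ⟨Finset.Icc (j + 1 - p) (j + p), ?_, ?_⟩
  · rw [Nat.card_Icc]
    omega
  · intro l hl
    rw [Finset.mem_Icc]
    simp only [okL, not_le] at hl
    rcases hl with h | h
    · rw [abs_lt] at h
      omega
    · rw [abs_lt] at h
      push_cast at h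
      omega

theorem bad_two (p : ℕ) (hp : 1 ≤ p) : ∃ B : Finset ℕ, B.card ≤ 2 * p ∧
    ∀ l, ¬ okL p 2 l ∨ ¬ okL p 0 l → l ∈ B := by
  rcases Nat.lt_or_ge p 2 with h | h
  · have hp1 : p = 1 := by omega
    subst hp1
    refine ⟨{0, 2}, by simp, ?_⟩
    intro l hl
    simp only [okL, not_le] at hl
    simp only [Finset.mem_insert, Finset.mem_singleton]
    rcases hl with h | h
    · rw [abs_lt] at h
      push_cast at h
      omega
    · rw [abs_lt] at h
      push_cast at h
      omega
  · refine ⟨Finset.Icc 0 (p + 1), ?_, ?_⟩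
    · rw [Nat.card_Icc]
      omega
    · intro l hl
      rw [Finset.mem_Icc]
      simp only [okL, not_le] at hl
      rcases hl with h | h
      · rw [abs_lt] at h
        push_cast at h
        omega
      · rw [abs_lt] at h
        push_cast at h
        omega

theorem bad_der (p c x : ℕ) (hp : 1 ≤ p) : ∃ B : Finset ℕ, B.card ≤ 2 * p ∧
    ∀ l, ¬ okL p x l ∨ ¬ okL p (der c x) l → l ∈ B := by
  rcases der_cases c x with ⟨j, ⟨h1, h2⟩ | ⟨h1, h2⟩⟩ | ⟨h1, h2⟩
  · obtain ⟨B, hB, h⟩ := bad_pair p j hp
    refine ⟨B, hB, fun l hl => h l ?_⟩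
    rw [h2, h1] at hl
    exact hl
  · obtain ⟨B, hB, h⟩ := bad_pair p j hp
    refine ⟨B, hB, fun l hl => h l ?_⟩
    rw [h2, h1] at hl
    exact hl.symm
  · obtain ⟨B, hB, h⟩ := bad_two p hp
    refine ⟨B, hB, fun l hl => h l ?_⟩
    rw [h2, h1] at hl
    exact hl

/-- the linear labelling -/
theorem fib_lin {V Y : Type} [Fintype V] [Fintype Y] (G : SimpleGraph V) (Q : SimpleGraph Y)
    (t : V → Y) (s : V → Bool) (D d p k c : ℕ) (hp : 1 ≤ p) (hf : Fibred G Q t s d)
    (hQ : ∀ y, (Q.neighborSet y).ncard ≤ D) (e : Y → Y → ℕ) (hc1 : ∀ u v, e u v = e v u)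
    (hc2 : ∀ u v, Q.Adj u v → e u v < k)
    (hc3 : ∀ u v w, Q.Adj u v → Q.Adj u w → v ≠ w → e u v ≠ e u w)
    (hcol : Q.Colorable c) (hc : 2 ≤ c) (hck : c + k ≤ D + d + p + 1)
    (hcN : c ≤ D + d + 2 * p) :
    ∃ (fV : V → ℕ) (fE : Sym2 V → ℕ),
      (∀ v, fV v < D + d + 2 * p) ∧ (∀ e ∈ G.edgeSet, fE e < D + d + 2 * p) ∧
      (∀ u v, G.Adj u v → fV u ≠ fV v) ∧
      (∀ u v w, G.Adj u v → G.Adj u w → v ≠ w → fE s(u, v) ≠ fE s(u, w)) ∧
      (∀ u v, G.Adj u v → (p : ℤ) ≤ |(fV u : ℤ) - (fE s(u, v) : ℤ)|) := by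
  classical
  obtain ⟨C⟩ := hcol
  set N := D + d + 2 * p with hN
  let F : Bool → Y → ℕ := fun b y => if b then der c (C y : ℕ) else (C y : ℕ)
  have hCm : ∀ y, (C y : ℕ) < c := fun y => (C y).2
  have hFm : ∀ b y, F b y < c := by
    intro b y
    have := hCm y
    cases b
    · simp only [F]
      simp
    · simp only [F, if_true]
      exact der_lt c _ hc this
  obtain ⟨fV, fE, g1, g2, g3, g4, g5⟩ := fib G Q t s D d N (okL p) F
    (fun y y' => c - 1 + p + e y y') (fun y y' => by simp only [hc1 y y'])
    (fun b y => lt_of_lt_of_le (hFm b y) hcN)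
    (by
      intro y y' h
      have := hc2 y y' h
      show c - 1 + p + e y y' < N
      omega)
    (by
      intro b y y' h
      have h3 : (C y : ℕ) ≠ (C y' : ℕ) := fun h4 => C.valid h (Fin.ext h4)
      cases b
      · simpa [F] using h3
      · simp only [F, if_true]
        exact der_inj c _ _ h3)
    (by
      intro y
      simp only [F, if_true]
      simpa using (der_ne c (C y)).symm)
    (by
      intro y y' y'' h h' hne
      have := hc3 y y' y'' h h' hne
      show c - 1 + p + e y y' ≠ c - 1 + p + e y y''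
      omega)
    (by
      intro b y y' h
      have h3 := hFm b y
      show (p : ℤ) ≤ |(F b y : ℤ) - ((c - 1 + p + e y y' : ℕ) : ℤ)|
      rw [abs_of_nonpos (by omega)]
      omega)
    (by
      intro y
      obtain ⟨B, hB, h⟩ := bad_der p c (C y) hp
      have h1 := countL p N (C y) (der c (C y)) (2 * p) B hB (fun l hl _ => h l hl)
      have h2 : D + d ≤ N - 2 * p := by omega
      refine h2.trans (h1.trans (le_of_eq ?_))
      simp only [F]
      simp)
    hQ hf.h1 hf.h1' hf.h2 hf.hd
  exact ⟨fV, fE, g1, g2, g3, g4, fun u v h => g5 u v h⟩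

/-- the circular labelling from a circular `(p + 1, 1)`-labelling of the base -/
theorem fib_base {V Y : Type} [Fintype V] [Fintype Y] (G : SimpleGraph V) (Q : SimpleGraph Y)
    (t : V → Y) (s : V → Bool) (D d p M : ℕ) (hp : 1 ≤ p) (hf : Fibred G Q t s d)
    (hQ : ∀ y, (Q.neighborSet y).ncard ≤ D) (hM : M ≤ D + d + 2 * p)
    (hlab : Pool.Agent.R661.HY.Circ Q (p + 1) M) :
    Pool.Agent.R661.HY.Circ G p (D + d + 2 * p) := by
  classical
  set N := D + d + 2 * p with hN
  obtain ⟨fV, fE, k1, k2, k3, k4, k5⟩ := Pool.Agent.R661.HY.circ_mono hlab hM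
  let F : Bool → Y → ℕ := fun b y => if b then (fV y + 1) % N else fV y
  have hN2 : 2 ≤ N := by omega
  obtain ⟨gV, gE, g1, g2, g3, g4, g5⟩ := fib G Q t s D d N (okC p N) F
    (fun y y' => fE s(y, y')) (fun y y' => by simp only [Sym2.eq_swap])
    (by
      intro b y
      cases b
      · simpa [F] using k1 y
      · simp only [F, if_true]
        exact Nat.mod_lt _ (by omega))
    (fun y y' h => k2 s(y, y') ((SimpleGraph.mem_edgeSet Q).2 h))
    (by
      intro b y y' h
      have h3 := k3 y y' h
      cases b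
      · simpa [F] using h3
      · simp only [F, if_true]
        intro h4
        have h5 := k1 y
        have h6 := k1 y'
        have := Pool.Agent.R661.HY.eq_of_mod h4 (by omega) (by omega)
        omega)
    (by
      intro y
      have h5 := k1 y
      simp only [F, if_true]
      simp only [Bool.false_eq_true, if_false]
      rcases Nat.lt_or_ge (fV y + 1) N with h | h
      · rw [Nat.mod_eq_of_lt h]
        omega
      · have : fV y + 1 = N := by omega
        rw [this, Nat.mod_self]
        omega)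
    (fun y y' y'' h h' hne => k4 y y' y'' h h' hne)
    (by
      intro b y y' h
      obtain ⟨h3, h4⟩ := k5 y y' h
      have h5 := k1 y
      have h6 := k2 s(y, y') ((SimpleGraph.mem_edgeSet Q).2 h)
      cases b
      · simp only [F, Bool.false_eq_true, if_false]
        push_cast at h3 h4
        exact ⟨by linarith, by linarith⟩
      · simp only [F, if_true]
        push_cast at h3 h4
        rcases Nat.lt_or_ge (fV y + 1) N with h7 | h7
        · rw [Nat.mod_eq_of_lt h7]
          constructor
          · push_cast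
            rcases le_abs.1 h3 with h8 | h8
            · rw [abs_of_nonneg (by omega)]
              omega
            · rw [abs_of_nonpos (by omega)]
              omega
          · push_cast
            rcases le_abs.1 h3 with h8 | h8
            · rw [abs_of_nonneg (by omega)] at h4 ⊢
              omega
            · rw [abs_of_nonpos (by omega)] at h4 ⊢
              omega
        · have h9 : fV y + 1 = N := by omega
          rw [h9, Nat.mod_self]
          have h10 : (fE s(y, y') : ℤ) < N := by exact_mod_cast h6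
          have h11 : (fV y : ℤ) + 1 = N := by exact_mod_cast h9
          constructor
          · push_cast
            rcases le_abs.1 h3 with h8 | h8
            · rw [abs_of_nonneg (by omega)] at h4
              rw [abs_of_nonpos (by omega)]
              omega
            · rw [abs_of_nonpos (by omega)]
              omega
          · push_cast
            rcases le_abs.1 h3 with h8 | h8
            · rw [abs_of_nonpos (by omega)]
              omega
            · rw [abs_of_nonpos (by omega)]
              omega)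
    (by
      intro y
      have h5 := k1 y
      have h1 := countC p N (fV y) hp (by omega) (by omega)
      rw [Nat.mod_eq_of_lt h5] at h1
      have h2 : D + d ≤ N - 2 * p := by omega
      refine h2.trans (h1.trans (le_of_eq ?_))
      simp only [F]
      simp)
    hQ hf.h1 hf.h1' hf.h2 hf.hd
  exact ⟨gV, gE, g1, g2, g3, g4, fun u v h => g5 u v h⟩

end Pool.Agent.T9h45.HY
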