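import Pool.Agent.T9h45.HY.Cyc

/-!
# Covering a set of vertices by two matchings
-/

set_option autoImplicit false

namespace Pool.T9h45.HY

open Pool.Q6.CI Pool.Q11.TwoEnd Finset

variable {V : Type*}

/-- choosing every second vertex -/
theorem alt [DecidableEq V] (f : V → V) (Q : V → Prop) [DecidablePred Q] :
    ∀ (n : ℕ) (R : Finset V), R.card = n →
    (∀ u ∈ R, ∀ v ∈ R, f u = f v → u = v) → (∀ u ∈ R, f u ≠ u) →
    (∀ u ∈ R, f u ∈ R → (Q u ↔ ¬ Q (f u))) →
    ∃ J ⊆ R, (∀ u ∈ J, f u ∉ J) ∧ ∀ u ∈ R, u ∈ J ∨ ∃ v ∈ J, f v = u := by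
  intro n
  induction n using Nat.strong_induction_on with
  | _ n ih =>
    intro R hn hinj hne hQ
    by_cases hR : ∃ u ∈ R, ∀ v ∈ R, f v ≠ u
    · obtain ⟨u, hu, hsrc⟩ := hR
      set R' := (R.erase u).erase (f u) with hR'
      have hsub : R' ⊆ R := (erase_subset _ _).trans (erase_subset _ _)
      have huR' : u ∉ R' := by
        intro h
        rw [hR', mem_erase, mem_erase] at h
        exact h.2.1 rfl
      have hfR' : f u ∉ R' := by
        intro h
        rw [hR', mem_erase, mem_erase] at h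
        exact h.1 rfl
      have hlt : R'.card < n := by
        rw [← hn]
        exact card_lt_card ⟨hsub, fun h => huR' (h hu)⟩
      obtain ⟨J, hJ, hJ1, hJ2⟩ := ih _ hlt R' rfl (fun a ha b hb => hinj a (hsub ha) b (hsub hb))
        (fun a ha => hne a (hsub ha)) (fun a ha hb => hQ a (hsub ha) (hsub hb))
      refine ⟨insert u J, ?_, ?_, ?_⟩
      · intro x hx
        rw [mem_insert] at hx
        rcases hx with rfl | hx
        · exact hu
        · exact hsub (hJ hx)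
      · intro a ha hb
        rw [mem_insert] at ha hb
        rcases ha with rfl | ha
        · rcases hb with hb | hb
          · exact hne a hu hb
          · exact hfR' (hJ hb)
        · rcases hb with hb | hb
          · exact hsrc a (hsub (hJ ha)) hb
          · exact hJ1 a ha hb
      · intro a ha
        by_cases h1 : a = u
        · exact Or.inl (h1 ▸ mem_insert_self _ _)
        by_cases h2 : a = f u
        · exact Or.inr ⟨u, mem_insert_self _ _, h2.symm⟩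
        have h3 : a ∈ R' := by
          rw [hR', mem_erase, mem_erase]
          exact ⟨h2, h1, ha⟩
        rcases hJ2 a h3 with h | ⟨v, hv, h⟩
        · exact Or.inl (mem_insert_of_mem h)
        · exact Or.inr ⟨v, mem_insert_of_mem hv, h⟩
    · push Not at hR
      have hsurj : R ⊆ R.image f := by
        intro u hu
        obtain ⟨v, hv, h⟩ := hR u hu
        exact mem_image.2 ⟨v, hv, h⟩
      have heq : R = R.image f := by
        apply eq_of_subset_of_card_le hsurj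
        exact card_image_le
      have hclosed : ∀ u ∈ R, f u ∈ R := by
        intro u hu
        rw [heq]
        exact mem_image_of_mem f hu
      refine ⟨R.filter Q, filter_subset _ _, ?_, ?_⟩
      · intro u hu h
        rw [mem_filter] at hu h
        exact (hQ u hu.1 h.1).1 hu.2 h.2
      · intro u hu
        by_cases h : Q u
        · exact Or.inl (mem_filter.2 ⟨hu, h⟩)
        · obtain ⟨v, hv, hvu⟩ := hR u hu
          refine Or.inr ⟨v, mem_filter.2 ⟨hv, ?_⟩, hvu⟩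
          rw [hQ v hv (hclosed v hv), hvu]
          exact h

/-- the graph with the edges `u f(u)`, `u ∈ J` -/
def mg (f : V → V) (J : Finset V) : SimpleGraph V where
  Adj v w := v ≠ w ∧ ((v ∈ J ∧ w = f v) ∨ (w ∈ J ∧ v = f w))
  symm := ⟨fun _ _ h => ⟨h.1.symm, h.2.symm⟩⟩
  loopless := ⟨fun _ h => h.1 rfl⟩

/-- `M` has at most one edge at each vertex -/
def Mt (M : SimpleGraph V) : Prop := ∀ v w w', M.Adj v w → M.Adj v w' → w = w'

theorem mg_mt {f : V → V} {J : Finset V} (hinj : ∀ u ∈ J, ∀ v ∈ J, f u = f v → u = v)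
    (hJ : ∀ u ∈ J, f u ∉ J) : Mt (mg f J) := by
  rintro v w w' ⟨-, h⟩ ⟨-, h'⟩
  rcases h with h | h <;> rcases h' with h' | h'
  · rw [h.2, h'.2]
  · exact absurd h.1 (h'.2 ▸ hJ w' h'.1)
  · exact absurd h'.1 (h.2 ▸ hJ w h.1)
  · exact hinj w h.1 w' h'.1 (h.2.symm.trans h'.2)

/-- **The cover lemma** -/
theorem cover [DecidableEq V] (Γ : SimpleGraph V) (Q : V → Prop) [DecidablePred Q]
    (hQ : ∀ v w, Γ.Adj v w → ¬ (Q v ∧ Q w)) (f : V → V) (R : Finset V)
    (hinj : ∀ u ∈ R, ∀ v ∈ R, f u = f v → u = v) (hf : ∀ u ∈ R, Γ.Adj u (f u)) :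
    ∃ J2 ⊆ R, ∃ J1 ⊆ R, (∀ u ∈ J2, f u ∉ J2) ∧ (∀ u ∈ J1, f u ∉ J1) ∧
      (∀ u ∈ J2, ¬ Q u ∧ ¬ Q (f u)) ∧ (∀ u ∈ J1, ∀ w, ¬ (mg f J2).Adj u w) ∧
      ∀ u ∈ R, u ∈ J2 ∨ (∃ v ∈ J2, f v = u) ∨ u ∈ J1 ∨ ∃ v ∈ J1, f v = u := by
  classical
  -- a maximal set `J2`
  let S : Finset (Finset V) := R.powerset.filter fun J => (∀ u ∈ J, f u ∉ J) ∧
    ∀ u ∈ J, ¬ Q u ∧ ¬ Q (f u)
  have hS : S.Nonempty := by
    refine ⟨∅, mem_filter.2 ⟨mem_powerset.2 (empty_subset _), ?_, ?_⟩⟩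
    · intro u hu
      exact absurd hu (notMem_empty _)
    · intro u hu
      exact absurd hu (notMem_empty _)
  obtain ⟨J2, hJ2, hmax⟩ := exists_max_image S card hS
  rw [mem_filter, mem_powerset] at hJ2
  obtain ⟨hJ2R, hJ2a, hJ2b⟩ := hJ2
  have hne : ∀ u ∈ R, f u ≠ u := fun u hu => (hf u hu).ne'
  set R1 := R.filter fun u => u ∉ J2 ∧ ∀ v ∈ J2, f v ≠ u with hR1
  have hR1R : R1 ⊆ R := filter_subset _ _
  have hR1m : ∀ u ∈ R1, u ∈ R ∧ u ∉ J2 ∧ ∀ v ∈ J2, f v ≠ u := fun u hu => by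
    rw [hR1, mem_filter] at hu
    exact hu
  -- by maximality
  have hmx : ∀ u ∈ R1, Q u ∨ Q (f u) ∨ f u ∈ J2 := by
    intro u hu
    by_contra hcon
    push Not at hcon
    obtain ⟨h1, h2, h3⟩ := hcon
    obtain ⟨h4, h5, h6⟩ := hR1m u hu
    have h7 : insert u J2 ∈ S := by
      rw [mem_filter, mem_powerset]
      refine ⟨?_, ?_, ?_⟩
      · intro x hx
        rw [mem_insert] at hx
        rcases hx with rfl | hx
        · exact h4
        · exact hJ2R hx
      · intro a ha hb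
        rw [mem_insert] at ha hb
        rcases ha with rfl | ha
        · rcases hb with hb | hb
          · exact hne a h4 hb
          · exact h3 hb
        · rcases hb with hb | hb
          · exact h6 a ha hb
          · exact hJ2a a ha hb
      · intro a ha
        rw [mem_insert] at ha
        rcases ha with rfl | ha
        · exact ⟨h1, h2⟩
        · exact hJ2b a ha
    have h8 := hmax _ h7
    rw [card_insert_of_notMem h5] at h8
    omega
  obtain ⟨J1, hJ1R, hJ1a, hJ1b⟩ := alt f Q _ R1 rfl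
    (fun a ha b hb => hinj a (hR1R ha) b (hR1R hb)) (fun a ha => hne a (hR1R ha)) (by
      intro u hu hfu
      have h1 := hmx u hu
      have h2 := hQ u (f u) (hf u (hR1R hu))
      have h3 := (hR1m (f u) hfu).2.1
      tauto)
  refine ⟨J2, hJ2R, J1, hJ1R.trans hR1R, hJ2a, hJ1a, hJ2b, ?_, ?_⟩
  · rintro u hu w ⟨-, h⟩
    have h1 := hR1m u (hJ1R hu)
    rcases h with h | h
    · exact h1.2.1 h.1
    · exact h1.2.2 w h.1 h.2.symm
  · intro u hu
    by_cases h1 : u ∈ J2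
    · exact Or.inl h1
    by_cases h2 : ∃ v ∈ J2, f v = u
    · exact Or.inr (Or.inl h2)
    push Not at h2
    have h3 : u ∈ R1 := by
      rw [hR1, mem_filter]
      exact ⟨hu, h1, h2⟩
    exact Or.inr (Or.inr (hJ1b u h3))

/-- maximal matchings -/
theorem max_mt [Fintype V] (Γ M0 : SimpleGraph V) (h0 : Mt M0) (hle : M0 ≤ Γ) :
    ∃ M, M0 ≤ M ∧ M ≤ Γ ∧ Mt M ∧ ∀ v w, Γ.Adj v w → (∃ x, M.Adj v x) ∨ ∃ x, M.Adj w x := by
  classical
  obtain ⟨M, hM, hmax⟩ := Finite.exists_le_maximal (p := fun M : SimpleGraph V => Mt M ∧ M ≤ Γ)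
    (a := M0) ⟨h0, hle⟩
  refine ⟨M, hM, hmax.1.2, hmax.1.1, ?_⟩
  intro v w hvw
  by_contra hcon
  push Not at hcon
  let M' : SimpleGraph V :=
    { Adj := fun a b => M.Adj a b ∨ (a = v ∧ b = w) ∨ (a = w ∧ b = v)
      symm := ⟨fun a b h => by
        rcases h with h | h | h
        · exact Or.inl h.symm
        · exact Or.inr (Or.inr ⟨h.2, h.1⟩)
        · exact Or.inr (Or.inl ⟨h.2, h.1⟩)⟩
      loopless := ⟨fun a h => by
        rcases h with h | h | h
        · exact h.ne rfl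
        · exact hvw.ne (h.1.symm.trans h.2)
        · exact hvw.ne (h.2.symm.trans h.1)⟩ }
  have h1 : Mt M' ∧ M' ≤ Γ := by
    refine ⟨?_, ?_⟩
    · intro a b b' h h'
      have hne := hvw.ne
      rcases h with h | ⟨h1, h2⟩ | ⟨h1, h2⟩ <;> rcases h' with h' | ⟨h1', h2'⟩ | ⟨h1', h2'⟩
      · exact hmax.1.1 a b b' h h'
      · subst h1'
        exact absurd h (hcon.1 b)
      · subst h1'
        exact absurd h (hcon.2 b)
      · subst h1
        exact absurd h' (hcon.1 b')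
      · rw [h2, h2']
      · exact absurd (h1.symm.trans h1') hne
      · subst h1
        exact absurd h' (hcon.2 b')
      · exact absurd (h1'.symm.trans h1) hne
      · rw [h2, h2']
    · intro a b h
      rcases h with h | h | h
      · exact hmax.1.2 h
      · rw [h.1, h.2]
        exact hvw
      · rw [h.1, h.2]
        exact hvw.symm
  have h2 : M ≤ M' := fun a b h => Or.inl h
  have h3 := hmax.2 h1 h2
  have h4 : M'.Adj v w := Or.inr (Or.inl ⟨rfl, rfl⟩)
  exact hcon.1 w (h3 h4)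

/-- `G` without the edges of `M` and `N` -/
def mns (G M N : SimpleGraph V) : SimpleGraph V where
  Adj v w := G.Adj v w ∧ ¬ M.Adj v w ∧ ¬ N.Adj v w
  symm := ⟨fun _ _ h => ⟨h.1.symm, fun h' => h.2.1 h'.symm, fun h' => h.2.2 h'.symm⟩⟩
  loopless := ⟨fun _ h => h.1.ne rfl⟩

/-- **Main decomposition**: two matchings whose removal leaves a graph which is `(p + 1)`-edge
colourable -/
theorem decomp [Fintype V] {G : SimpleGraph V} {p : ℕ} {c : V → ℕ} (hp : 3 ≤ p)
    (hc : Good G p c) (hD : ∀ v, dg G v ≤ p + 1) :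
    ∃ M1 M2 : SimpleGraph V, Mt M1 ∧ Mt M2 ∧ (∀ v w, M1.Adj v w → c v < p) ∧
      (∀ v w, M2.Adj v w → c v < p - 1) ∧ EC (mns G M1 M2) (p + 1) := by
  classical
  obtain ⟨R, f, hR1, hR2, hR3⟩ := hit hp hc hD
  let Γ : SimpleGraph V :=
    { Adj := fun v w => G.Adj v w ∧ c v ≠ p ∧ c w ≠ p
      symm := ⟨fun _ _ h => ⟨h.1.symm, h.2.2, h.2.1⟩⟩
      loopless := ⟨fun _ h => h.1.ne rfl⟩ }
  have hfΓ : ∀ u ∈ R, Γ.Adj u (f u) := fun u hu => ⟨(hR1 u hu).2.2, (hR1 u hu).1, (hR1 u hu).2.1⟩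
  obtain ⟨J2, hJ2R, J1, hJ1R, hJ2a, hJ1a, hJ2b, hJ12, hcov⟩ := cover Γ (fun v => c v = p - 1)
    (fun v w h h' => hc.proper v w h.1 (h'.1.trans h'.2.symm)) f R hR2 hfΓ
  set M2 := mg f J2 with hM2
  have hM2t : Mt M2 := mg_mt (fun a ha b hb => hR2 a (hJ2R ha) b (hJ2R hb)) hJ2a
  have hM1t : Mt (mg f J1) := mg_mt (fun a ha b hb => hR2 a (hJ1R ha) b (hJ1R hb)) hJ1a
  let Γ' : SimpleGraph V :=
    { Adj := fun v w => Γ.Adj v w ∧ ¬ M2.Adj v w
      symm := ⟨fun _ _ h => ⟨h.1.symm, fun h' => h.2 h'.symm⟩⟩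
      loopless := ⟨fun _ h => h.1.ne rfl⟩ }
  have hle : mg f J1 ≤ Γ' := by
    intro a b h
    obtain ⟨hne, h⟩ := h
    rcases h with ⟨h1, h2⟩ | ⟨h1, h2⟩
    · refine ⟨?_, hJ12 a h1 b⟩
      rw [h2]
      exact hfΓ a (hJ1R h1)
    · refine ⟨?_, fun h' => hJ12 b h1 a h'.symm⟩
      rw [h2]
      exact (hfΓ b (hJ1R h1)).symm
  obtain ⟨M1, hM01, hM1Γ, hM1m, hM1max⟩ := max_mt Γ' (mg f J1) hM1t hle
  have hlt : ∀ v, c v ≠ p → c v < p := fun v hv => lt_of_le_of_ne (hc.le v) hv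
  refine ⟨M1, M2, hM1m, hM2t, fun v w h => hlt v (hM1Γ h).1.2.1, ?_, ?_⟩
  · intro v w h
    obtain ⟨hne, h⟩ := h
    rcases h with ⟨h1, h2⟩ | ⟨h1, h2⟩
    · have h3 := (hJ2b v h1).1
      have h4 := hlt v (hR1 v (hJ2R h1)).1
      change ¬ c v = p - 1 at h3
      omega
    · have h3 := (hJ2b w h1).2
      have h4 := hlt (f w) (hR1 w (hJ2R h1)).2.1
      change ¬ c (f w) = p - 1 at h3
      rw [h2]
      omega
  · have hMG1 : ∀ v w, M1.Adj v w → G.Adj v w := fun v w h => (hM1Γ h).1.1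
    have hMG2 : ∀ v w, M2.Adj v w → G.Adj v w := by
      rintro v w ⟨-, h⟩
      rcases h with ⟨h1, h2⟩ | ⟨h1, h2⟩
      · rw [h2]
        exact (hR1 v (hJ2R h1)).2.2
      · rw [h2]
        exact (hR1 w (hJ2R h1)).2.2.symm
    have hHle : mns G M1 M2 ≤ G := fun _ _ h => h.1
    -- a vertex of full degree is not covered
    have hfull : ∀ v, dg (mns G M1 M2) v = p + 1 → (∀ w, ¬ M1.Adj v w) ∧ ∀ w, ¬ M2.Adj v w := by
      intro v hv
      have key : ∀ w, G.Adj v w → (mns G M1 M2).Adj v w := by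
        intro w hw
        by_contra hcon
        have h1 : (univ.filter fun w => (mns G M1 M2).Adj v w) ⊂ univ.filter fun w => G.Adj v w := by
          refine ⟨?_, fun h => ?_⟩
          · intro x hx
            rw [mem_filter] at hx ⊢
            exact ⟨mem_univ _, hx.2.1⟩
          · have h2 := h (mem_filter.2 ⟨mem_univ _, hw⟩)
            exact hcon (mem_filter.1 h2).2
        have h2 := card_lt_card h1
        have h3 := hD v
        unfold dg at hv h3
        omega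
      exact ⟨fun w h => (key w (hMG1 v w h)).2.1 h, fun w h => (key w (hMG2 v w h)).2.2 h⟩
    refine fournier (p + 1) _ (fun v => (dg_mono hHle v).trans (hD v)) ?_
    intro X hXn hXD
    by_contra hcon
    push Not at hcon
    have hcyc : Cyc G p c X := by
      refine ⟨hXn, fun v hv => ?_⟩
      obtain ⟨w, hw, w', hw', h1, h2, h3⟩ := hcon v hv
      refine ⟨w, hw, w', hw', h3, h1.1, h2.1, ?_⟩
      by_cases hvp : c v = p
      · exact Or.inl hvp
      · have key : ∀ y ∈ X, (mns G M1 M2).Adj v y → c y = p := by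
          intro y hy hvy
          by_contra hyp
          have h4 : Γ'.Adj v y := ⟨⟨hvy.1, hvp, hyp⟩, hvy.2.2⟩
          rcases hM1max v y h4 with ⟨x, hx⟩ | ⟨x, hx⟩
          · exact (hfull v (hXD v hv)).1 x hx
          · exact (hfull y (hXD y hy)).1 x hx
        exact Or.inr ⟨key w hw h1, key w' hw' h2⟩
    obtain ⟨u, huR, huX⟩ := hR3 X hcyc
    obtain ⟨h1, h2⟩ := hfull u (hXD u huX)
    rcases hcov u huR with h | ⟨v, hv, h⟩ | h | ⟨v, hv, h⟩
    · exact h2 (f u) ⟨(hR1 u huR).2.2.ne, Or.inl ⟨h, rfl⟩⟩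
    · refine h2 v ⟨?_, Or.inr ⟨hv, h.symm⟩⟩
      rw [← h]
      exact (hR1 v (hJ2R hv)).2.2.ne'
    · exact h1 (f u) (hM01 ⟨(hR1 u huR).2.2.ne, Or.inl ⟨h, rfl⟩⟩)
    · refine h1 v (hM01 ⟨?_, Or.inr ⟨hv, h.symm⟩⟩)
      rw [← h]
      exact (hR1 v (hJ1R hv)).2.2.ne'

end Pool.T9h45.HY
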