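import Pool.Agent.T9h45.HY.Fournier

/-!
# Proper colourings with a smallest last class: the cycles between the last class and the rest

Let `c` be a proper colouring of `G` with the colours `0, …, p` such that the last class `I` is as
small as possible, and let the maximum degree be at most `p + 1`.
-/

set_option autoImplicit false

namespace Pool.T9h45.HY

open Pool.Q6.CI Finset

variable {V : Type*} [Fintype V]

open Classical in
/-- a proper colouring with colours `≤ p` and a smallest last class -/
structure Good (G : SimpleGraph V) (p : ℕ) (c : V → ℕ) : Prop where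
  le : ∀ v, c v ≤ p
  proper : ∀ v w, G.Adj v w → c v ≠ c w
  min : ∀ c' : V → ℕ, (∀ v, c' v ≤ p) → (∀ v w, G.Adj v w → c' v ≠ c' w) →
    (univ.filter fun v => c v = p).card ≤ (univ.filter fun v => c' v = p).card

/-- no edge with an end in the last class leaves `Z` -/
def Cl (G : SimpleGraph V) (p : ℕ) (c : V → ℕ) (Z : Finset V) : Prop :=
  ∀ v ∈ Z, ∀ w, G.Adj v w → (c v = p ∨ c w = p) → w ∈ Z

open Classical in
/-- pairs of adjacent vertices of `Y`, the first one in the last class -/
noncomputable def prs (G : SimpleGraph V) (p : ℕ) (c : V → ℕ) (Y : Finset V) : Finset (V × V) :=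
  ((Y.filter fun v => c v = p) ×ˢ Y).filter fun q => G.Adj q.1 q.2

/-- every vertex of `X` has two neighbours in `X` along edges with an end in the last class -/
def Cyc (G : SimpleGraph V) (p : ℕ) (c : V → ℕ) (X : Finset V) : Prop :=
  X.Nonempty ∧ ∀ v ∈ X, ∃ w ∈ X, ∃ w' ∈ X, w ≠ w' ∧ G.Adj v w ∧ G.Adj v w' ∧
    (c v = p ∨ (c w = p ∧ c w' = p))

variable {G : SimpleGraph V} {p : ℕ} {c : V → ℕ}

omit [Fintype V] in
theorem mem_prs {Y : Finset V} {a b : V} :
    (a, b) ∈ prs G p c Y ↔ a ∈ Y ∧ b ∈ Y ∧ c a = p ∧ G.Adj a b := by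
  classical
  unfold prs
  simp only [mem_filter, mem_product]
  tauto

theorem exists_good (h : ∃ c : V → ℕ, (∀ v, c v ≤ p) ∧ ∀ v w, G.Adj v w → c v ≠ c w) :
    ∃ c, Good G p c := by
  classical
  let P : ℕ → Prop := fun n => ∃ c : V → ℕ, (∀ v, c v ≤ p) ∧ (∀ v w, G.Adj v w → c v ≠ c w) ∧
    (univ.filter fun v => c v = p).card = n
  have hP : ∃ n, P n := by
    obtain ⟨c, h1, h2⟩ := h
    exact ⟨_, c, h1, h2, rfl⟩
  obtain ⟨c, h1, h2, h3⟩ := Nat.find_spec hP
  refine ⟨c, h1, h2, ?_⟩
  intro c' h4 h5
  rw [h3]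
  exact Nat.find_min' hP ⟨c', h4, h5, rfl⟩

open Classical in
/-- swapping the last colour with the colour `j` on a closed set -/
theorem swap_le (hc : Good G p c) {Z : Finset V} (hZ : Cl G p c Z) {j : ℕ} (hj : j < p) :
    (Z.filter fun v => c v = p).card ≤ (Z.filter fun v => c v = j).card := by
  set c' : V → ℕ := fun v => if v ∈ Z then (if c v = p then j else if c v = j then p else c v)
    else c v with hc'
  have h1 : ∀ v, c' v ≤ p := by
    intro v
    have := hc.le v
    simp only [hc']
    split_ifs <;> omega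
  have h2 : ∀ v w, G.Adj v w → c' v ≠ c' w := by
    have key : ∀ v w, G.Adj v w → v ∈ Z → w ∉ Z → c' v ≠ c' w := by
      intro v w h hv hw
      have h3 : ¬ (c v = p ∨ c w = p) := fun h4 => hw (hZ v hv w h h4)
      push Not at h3
      have h4 := hc.proper v w h
      simp only [hc', if_pos hv, if_neg hw, if_neg h3.1]
      split_ifs with h5
      · exact fun h6 => h3.2 h6.symm
      · exact h4
    intro v w h
    by_cases hv : v ∈ Z <;> by_cases hw : w ∈ Z
    · have h4 := hc.proper v w h
      simp only [hc', if_pos hv, if_pos hw]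
      split_ifs <;> omega
    · exact key v w h hv hw
    · exact (key w v h.symm hw hv).symm
    · simp only [hc', if_neg hv, if_neg hw]
      exact hc.proper v w h
  have h3 := hc.min c' h1 h2
  have h4 : (univ.filter fun v => c v = p) =
      (Z.filter fun v => c v = p) ∪ (Zᶜ.filter fun v => c v = p) := by
    ext v
    simp only [mem_filter, mem_univ, true_and, mem_union, mem_compl]
    tauto
  have h5 : (univ.filter fun v => c' v = p) ⊆
      (Z.filter fun v => c v = j) ∪ (Zᶜ.filter fun v => c v = p) := by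
    intro v
    simp only [mem_filter, mem_univ, true_and, mem_union, mem_compl, hc']
    intro h
    by_cases hv : v ∈ Z
    · rw [if_pos hv] at h
      refine Or.inl ⟨hv, ?_⟩
      split_ifs at h with h6 h7
      · omega
      · exact h7
      · exact absurd h h6
    · rw [if_neg hv] at h
      exact Or.inr ⟨hv, h⟩
  have h6 := card_le_card h5
  have h7 := card_union_le (Z.filter fun v => c v = j) (Zᶜ.filter fun v => c v = p)
  have h8 : ((Z.filter fun v => c v = p) ∪ (Zᶜ.filter fun v => c v = p)).card =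
      (Z.filter fun v => c v = p).card + (Zᶜ.filter fun v => c v = p).card := by
    apply card_union_of_disjoint
    rw [Finset.disjoint_left]
    intro v hv hv'
    rw [mem_filter] at hv hv'
    exact (mem_compl.1 hv'.1) hv.1
  rw [h4, h8] at h3
  omega

open Classical in
theorem prs_card_le (hD : ∀ v, dg G v ≤ p + 1) (Z : Finset V) :
    (prs G p c Z).card ≤ (p + 1) * (Z.filter fun v => c v = p).card := by
  have h1 : (prs G p c Z).card ≤ ∑ v ∈ Z.filter (fun v => c v = p), dg G v := by
    have h2 : prs G p c Z ⊆ (Z.filter fun v => c v = p).biUnion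
        fun v => (univ.filter fun w => G.Adj v w).image fun w => (v, w) := by
      rintro ⟨a, b⟩ h
      rw [mem_prs] at h
      rw [mem_biUnion]
      refine ⟨a, mem_filter.2 ⟨h.1, h.2.2.1⟩, ?_⟩
      rw [mem_image]
      exact ⟨b, mem_filter.2 ⟨mem_univ _, h.2.2.2⟩, rfl⟩
    refine (card_le_card h2).trans (card_biUnion_le.trans (sum_le_sum fun v _ => ?_))
    unfold dg
    exact card_image_le
  refine h1.trans ?_
  rw [mul_comm]
  calc ∑ v ∈ Z.filter (fun v => c v = p), dg G v ≤ ∑ v ∈ Z.filter (fun v => c v = p), (p + 1) :=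
        sum_le_sum fun v _ => hD v
    _ = _ := by rw [sum_const, smul_eq_mul]

open Classical in
omit [Fintype V] in
theorem card_classes (hle : ∀ v, c v ≤ p) (Z : Finset V) :
    Z.card = ∑ j ∈ range (p + 1), (Z.filter fun v => c v = j).card :=
  card_eq_sum_card_fiberwise fun v _ => by
    rw [mem_coe, mem_range]
    have := hle v
    omega

open Classical in
theorem closed_le (hc : Good G p c) (hD : ∀ v, dg G v ≤ p + 1) {Z : Finset V}
    (hZ : Cl G p c Z) : (prs G p c Z).card ≤ Z.card ∧ (Z.card ≤ (prs G p c Z).card →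
      ∀ j < p, (Z.filter fun v => c v = j).card = (Z.filter fun v => c v = p).card) := by
  have h1 := prs_card_le (c := c) hD Z
  have h2 := card_classes hc.le Z
  have h3 : ∀ j ∈ range (p + 1),
      (Z.filter fun v => c v = p).card ≤ (Z.filter fun v => c v = j).card := by
    intro j hj
    rw [mem_range] at hj
    rcases Nat.lt_or_ge j p with h | h
    · exact swap_le hc hZ h
    · have : j = p := by omega
      rw [this]
  have h4 : ∑ j ∈ range (p + 1), (Z.filter fun v => c v = p).card =
      (p + 1) * (Z.filter fun v => c v = p).card := by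
    rw [sum_const, card_range, smul_eq_mul]
  have h5 := sum_le_sum h3
  refine ⟨by omega, fun h j hj => ?_⟩
  have h6 : ∑ j ∈ range (p + 1), (Z.filter fun v => c v = p).card =
      ∑ j ∈ range (p + 1), (Z.filter fun v => c v = j).card := by omega
  exact ((sum_eq_sum_iff_of_le h3).1 h6 j (mem_range.2 (by omega))).symm

/-- growing a set to a closed set -/
theorem grow (Y : Finset V) : ∃ Z, Y ⊆ Z ∧ Cl G p c Z ∧
    (prs G p c Y).card + Z.card ≤ (prs G p c Z).card + Y.card := by
  classical
  let S : Finset (Finset V) := univ.filter fun Z => Y ⊆ Z ∧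
    (prs G p c Y).card + Z.card ≤ (prs G p c Z).card + Y.card
  have hS : S.Nonempty := ⟨Y, mem_filter.2 ⟨mem_univ _, Subset.refl _, le_rfl⟩⟩
  obtain ⟨Z, hZ, hmax⟩ := exists_max_image S card hS
  rw [mem_filter] at hZ
  obtain ⟨-, hYZ, hcard⟩ := hZ
  refine ⟨Z, hYZ, ?_, hcard⟩
  intro v hv w hvw hcol
  by_contra hw
  have h1 : insert w Z ∈ S := by
    rw [mem_filter]
    refine ⟨mem_univ _, hYZ.trans (subset_insert _ _), ?_⟩
    rw [card_insert_of_notMem hw]
    have h2 : (prs G p c Z).card + 1 ≤ (prs G p c (insert w Z)).card := by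
      have h3 : ∃ q : V × V, q ∉ prs G p c Z ∧ q ∈ prs G p c (insert w Z) := by
        rcases hcol with h | h
        · exact ⟨(v, w), fun h4 => hw (mem_prs.1 h4).2.1,
            mem_prs.2 ⟨mem_insert_of_mem hv, mem_insert_self _ _, h, hvw⟩⟩
        · exact ⟨(w, v), fun h4 => hw (mem_prs.1 h4).1,
            mem_prs.2 ⟨mem_insert_self _ _, mem_insert_of_mem hv, h, hvw.symm⟩⟩
      obtain ⟨q, hq1, hq2⟩ := h3
      rw [← card_insert_of_notMem hq1]
      apply card_le_card
      rintro ⟨a, b⟩ hab
      rw [mem_insert] at hab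
      rcases hab with rfl | hab
      · exact hq2
      · rw [mem_prs] at hab ⊢
        exact ⟨mem_insert_of_mem hab.1, mem_insert_of_mem hab.2.1, hab.2.2⟩
    omega
  have h2 := hmax _ h1
  rw [card_insert_of_notMem hw] at h2
  omega

theorem all_le (hc : Good G p c) (hD : ∀ v, dg G v ≤ p + 1) (Y : Finset V) :
    (prs G p c Y).card ≤ Y.card := by
  obtain ⟨Z, -, h2, h3⟩ := grow (G := G) (p := p) (c := c) Y
  have := (closed_le hc hD h2).1
  omega

omit [Fintype V] in
theorem supmod [DecidableEq V] (X Y : Finset V) : (prs G p c X).card + (prs G p c Y).card ≤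
    (prs G p c (X ∪ Y)).card + (prs G p c (X ∩ Y)).card := by
  rw [← card_union_add_card_inter]
  apply Nat.add_le_add
  · apply card_le_card
    rintro ⟨a, b⟩ h
    rw [mem_union, mem_prs, mem_prs] at h
    rw [mem_prs]
    rcases h with h | h
    · exact ⟨mem_union_left _ h.1, mem_union_left _ h.2.1, h.2.2⟩
    · exact ⟨mem_union_right _ h.1, mem_union_right _ h.2.1, h.2.2⟩
  · apply card_le_card
    rintro ⟨a, b⟩ h
    rw [mem_inter, mem_prs, mem_prs] at h
    rw [mem_prs]
    exact ⟨mem_inter.2 ⟨h.1.1, h.2.1⟩, mem_inter.2 ⟨h.1.2.1, h.2.2.1⟩, h.1.2.2⟩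

open Classical in
theorem cyc_card (hc : ∀ v w, G.Adj v w → c v ≠ c w) {X : Finset V} (hX : Cyc G p c X) :
    X.card ≤ (prs G p c X).card := by
  have h1 : 2 * (X.filter fun v => c v = p).card ≤ (prs G p c X).card := by
    have h2 : (X.filter fun v => c v = p).card * 2 ≤ ((prs G p c X).image Prod.fst).card * 2 := by
      apply Nat.mul_le_mul_right
      apply card_le_card
      intro v hv
      rw [mem_filter] at hv
      obtain ⟨w, hw, w', hw', hne, h3, h4, h5⟩ := hX.2 v hv.1
      rw [mem_image]
      exact ⟨(v, w), mem_prs.2 ⟨hv.1, hw, hv.2, h3⟩, rfl⟩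
    have h3 : ((prs G p c X).image Prod.fst).card * 2 ≤ (prs G p c X).card := by
      rw [mul_comm]
      apply mul_card_image_le_card
      intro v hv
      rw [mem_image] at hv
      obtain ⟨⟨a, b⟩, hab, rfl⟩ := hv
      rw [mem_prs] at hab
      obtain ⟨w, hw, w', hw', hne, h3, h4, h5⟩ := hX.2 a hab.1
      have h6 : ({(a, w), (a, w')} : Finset (V × V)) ⊆ (prs G p c X).filter fun q => q.1 = a := by
        intro q hq
        rw [mem_insert, mem_singleton] at hq
        rw [mem_filter]
        rcases hq with rfl | rfl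
        · exact ⟨mem_prs.2 ⟨hab.1, hw, hab.2.2.1, h3⟩, rfl⟩
        · exact ⟨mem_prs.2 ⟨hab.1, hw', hab.2.2.1, h4⟩, rfl⟩
      have h7 := card_le_card h6
      rw [card_pair (fun h => hne (congrArg Prod.snd h))] at h7
      exact h7
    omega
  have h2 : 2 * (X.filter fun v => c v ≠ p).card ≤ (prs G p c X).card := by
    have hcol : ∀ v ∈ X, c v ≠ p → ∃ w ∈ X, ∃ w' ∈ X, w ≠ w' ∧ G.Adj v w ∧ G.Adj v w' ∧
        c w = p ∧ c w' = p := by
      intro v hv hvp
      obtain ⟨w, hw, w', hw', hne, h3, h4, h5⟩ := hX.2 v hv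
      rcases h5 with h5 | h5
      · exact absurd h5 hvp
      · exact ⟨w, hw, w', hw', hne, h3, h4, h5⟩
    have h2 : (X.filter fun v => c v ≠ p).card * 2 ≤ ((prs G p c X).image Prod.snd).card * 2 := by
      apply Nat.mul_le_mul_right
      apply card_le_card
      intro v hv
      rw [mem_filter] at hv
      obtain ⟨w, hw, w', hw', hne, h3, h4, h5, h6⟩ := hcol v hv.1 hv.2
      rw [mem_image]
      exact ⟨(w, v), mem_prs.2 ⟨hw, hv.1, h5, h3.symm⟩, rfl⟩
    have h3 : ((prs G p c X).image Prod.snd).card * 2 ≤ (prs G p c X).card := by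
      rw [mul_comm]
      apply mul_card_image_le_card
      intro v hv
      rw [mem_image] at hv
      obtain ⟨⟨a, b⟩, hab, rfl⟩ := hv
      rw [mem_prs] at hab
      have hbp : c b ≠ p := by
        have := hc a b hab.2.2.2
        intro h
        rw [h, hab.2.2.1] at this
        exact this rfl
      obtain ⟨w, hw, w', hw', hne, h3, h4, h5, h6⟩ := hcol b hab.2.1 hbp
      have h6 : ({(w, b), (w', b)} : Finset (V × V)) ⊆ (prs G p c X).filter fun q => q.2 = b := by
        intro q hq
        rw [mem_insert, mem_singleton] at hq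
        rw [mem_filter]
        rcases hq with rfl | rfl
        · exact ⟨mem_prs.2 ⟨hw, hab.2.1, h5, h3.symm⟩, rfl⟩
        · exact ⟨mem_prs.2 ⟨hw', hab.2.1, h6, h4.symm⟩, rfl⟩
      have h7 := card_le_card h6
      rw [card_pair (fun h => hne (congrArg Prod.fst h))] at h7
      exact h7
    omega
  have h3 : (X.filter fun v => c v = p).card + (X.filter fun v => c v ≠ p).card = X.card :=
    card_filter_add_card_filter_not (s := X) (fun v => c v = p)
  omega

theorem forest_card (hc : ∀ v w, G.Adj v w → c v ≠ c w) : ∀ (n : ℕ) (Z : Finset V), Z.card = n →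
    Z.Nonempty → (∀ X ⊆ Z, ¬ Cyc G p c X) → (prs G p c Z).card + 1 ≤ Z.card := by
  classical
  intro n
  induction n with
  | zero =>
    intro Z hZ hne
    rw [card_eq_zero] at hZ
    exact absurd hZ hne.ne_empty
  | succ n ih =>
    intro Z hZ hne hX
    -- a vertex with at most one neighbour
    have h1 : ∃ v ∈ Z, ∀ w ∈ Z, ∀ w' ∈ Z, G.Adj v w → G.Adj v w' →
        (c v = p ∨ (c w = p ∧ c w' = p)) → w = w' := by
      by_contra hcon
      push Not at hcon
      apply hX Z (Subset.refl _)
      refine ⟨hne, fun v hv => ?_⟩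
      obtain ⟨w, hw, w', hw', h2, h3, h4, h5⟩ := hcon v hv
      exact ⟨w, hw, w', hw', h5, h2, h3, h4⟩
    obtain ⟨v, hv, hv1⟩ := h1
    have h2 : (prs G p c Z).card ≤ (prs G p c (Z.erase v)).card +
        (Z.filter fun w => G.Adj v w ∧ (c v = p ∨ c w = p)).card := by
      have h3 : prs G p c Z ⊆ prs G p c (Z.erase v) ∪
          (Z.filter fun w => G.Adj v w ∧ (c v = p ∨ c w = p)).image
            (fun w => if c v = p then (v, w) else (w, v)) := by
        rintro ⟨a, b⟩ hab
        rw [mem_prs] at hab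
        rw [mem_union]
        by_cases ha : a = v
        · subst ha
          refine Or.inr (mem_image.2 ⟨b, mem_filter.2 ⟨hab.2.1, hab.2.2.2, Or.inl hab.2.2.1⟩, ?_⟩)
          rw [if_pos hab.2.2.1]
        · by_cases hb : b = v
          · subst hb
            have hbp : c b ≠ p := by
              have := hc a b hab.2.2.2
              intro h
              rw [h, hab.2.2.1] at this
              exact this rfl
            refine Or.inr (mem_image.2 ⟨a, mem_filter.2 ⟨hab.1, hab.2.2.2.symm,
              Or.inr hab.2.2.1⟩, ?_⟩)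
            rw [if_neg hbp]
          · exact Or.inl (mem_prs.2 ⟨mem_erase.2 ⟨ha, hab.1⟩, mem_erase.2 ⟨hb, hab.2.1⟩,
              hab.2.2⟩)
      exact (card_le_card h3).trans ((card_union_le _ _).trans
        (Nat.add_le_add_left card_image_le _))
    have h3 : (Z.filter fun w => G.Adj v w ∧ (c v = p ∨ c w = p)).card ≤ 1 := by
      rw [card_le_one]
      intro a ha b hb
      rw [mem_filter] at ha hb
      refine hv1 a ha.1 b hb.1 ha.2.1 hb.2.1 ?_
      by_cases hvp : c v = p
      · exact Or.inl hvp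
      · exact Or.inr ⟨ha.2.2.resolve_left hvp, hb.2.2.resolve_left hvp⟩
    have h4 : (Z.erase v).card = n := by
      rw [card_erase_of_mem hv, hZ]
      rfl
    by_cases hne' : (Z.erase v).Nonempty
    · have h5 := ih (Z.erase v) h4 hne' fun X hX' => hX X (hX'.trans (erase_subset _ _))
      omega
    · rw [not_nonempty_iff_eq_empty] at hne'
      have h5 : (prs G p c Z).card = 0 := by
        rw [card_eq_zero, eq_empty_iff_forall_notMem]
        rintro ⟨a, b⟩ hab
        rw [mem_prs] at hab
        have h6 : ∀ x ∈ Z, x = v := by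
          intro x hx
          by_contra hxv
          have : x ∈ Z.erase v := mem_erase.2 ⟨hxv, hx⟩
          rw [hne'] at this
          exact absurd this (notMem_empty _)
        have h7 := hab.2.2.2.ne
        rw [h6 a hab.1, h6 b hab.2.1] at h7
        exact h7 rfl
      omega

/-- a minimal cyclic set -/
def MC (G : SimpleGraph V) (p : ℕ) (c : V → ℕ) (X : Finset V) : Prop :=
  Cyc G p c X ∧ ∀ Y, Y ⊂ X → ¬ Cyc G p c Y

omit [Fintype V] in
theorem exists_MC : ∀ (n : ℕ) (X : Finset V), X.card = n → Cyc G p c X →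
    ∃ Y ⊆ X, MC G p c Y := by
  intro n
  induction n using Nat.strong_induction_on with
  | _ n ih =>
    intro X hn hX
    by_cases h : ∃ Y, Y ⊂ X ∧ Cyc G p c Y
    · obtain ⟨Y, hY, hYc⟩ := h
      obtain ⟨Z, hZ, hZ'⟩ := ih Y.card (hn ▸ card_lt_card hY) Y rfl hYc
      exact ⟨Z, hZ.trans hY.1, hZ'⟩
    · push Not at h
      exact ⟨X, Subset.refl _, hX, h⟩

theorem MC_disj (hc : Good G p c) (hD : ∀ v, dg G v ≤ p + 1) {X Y : Finset V}
    (hX : MC G p c X) (hY : MC G p c Y) (hne : X ≠ Y) : Disjoint X Y := by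
  classical
  rw [disjoint_iff_inter_eq_empty]
  by_contra hcon
  have hne' : (X ∩ Y).Nonempty := nonempty_iff_ne_empty.2 hcon
  have hss : X ∩ Y ⊂ X := by
    refine ⟨inter_subset_left, fun h => ?_⟩
    have h1 : X ⊆ Y := fun x hx => (mem_inter.1 (h hx)).2
    exact hY.2 X (Finset.ssubset_iff_subset_ne.2 ⟨h1, hne⟩) hX.1
  have h1 := forest_card (p := p) hc.proper _ (X ∩ Y) rfl hne' fun Z hZ =>
    hX.2 Z (lt_of_le_of_lt hZ hss)
  have h2 := supmod (G := G) (p := p) (c := c) X Y
  have h3 := all_le hc hD (X ∪ Y)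
  have h4 := cyc_card hc.proper hX.1
  have h5 := cyc_card hc.proper hY.1
  have h6 := card_union_add_card_inter X Y
  omega

/-- a vertex of a cyclic set outside the last class has a neighbour of every other colour `< p` -/
theorem all_nbrs (hc : Good G p c) (hD : ∀ v, dg G v ≤ p + 1) {X : Finset V}
    (hX : Cyc G p c X) {u : V} (hu : u ∈ X) (hup : c u ≠ p) {i : ℕ} (hi : i < p) (hiu : i ≠ c u) :
    ∃ w, G.Adj u w ∧ c w = i := by
  classical
  by_contra hcon
  push Not at hcon
  obtain ⟨Z, hXZ, hZ, hZc⟩ := grow (G := G) (p := p) (c := c) X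
  have h1 := cyc_card hc.proper hX
  have h2 := (closed_le hc hD hZ).2 (by omega)
  set c' : V → ℕ := Function.update c u i with hc'
  have e1 : c' u = i := by rw [hc', Function.update_self]
  have e2 : ∀ v, v ≠ u → c' v = c v := fun v hv => by rw [hc', Function.update_of_ne hv]
  have e3 : ∀ v, c' v = p ↔ c v = p := by
    intro v
    by_cases hv : v = u
    · subst hv
      rw [e1]
      exact ⟨fun h => by omega, fun h => absurd h hup⟩
    · rw [e2 v hv]
  have hg : Good G p c' := by
    refine ⟨?_, ?_, ?_⟩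
    · intro v
      by_cases hv : v = u
      · subst hv
        rw [e1]
        exact hi.le
      · rw [e2 v hv]
        exact hc.le v
    · intro v w h
      by_cases hv : v = u
      · subst hv
        rw [e1, e2 w h.ne']
        exact fun h' => hcon w h h'.symm
      · by_cases hw : w = u
        · subst hw
          rw [e1, e2 v hv]
          exact fun h' => hcon v h.symm h'
        · rw [e2 v hv, e2 w hw]
          exact hc.proper v w h
    · intro c'' h3 h4
      have h5 := hc.min c'' h3 h4
      have h6 : (univ.filter fun v => c' v = p) = univ.filter fun v => c v = p := by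
        ext v
        rw [mem_filter, mem_filter, e3]
      rw [h6]
      exact h5
  have hCl : Cl G p c' Z := by
    intro v hv w hvw h
    rw [e3, e3] at h
    exact hZ v hv w hvw h
  have huj : c u < p := lt_of_le_of_ne (hc.le u) hup
  have h3 := swap_le hg hCl huj
  have h4 : (Z.filter fun v => c' v = p) = Z.filter fun v => c v = p := by
    ext v
    rw [mem_filter, mem_filter, e3]
  have h5 : (Z.filter fun v => c' v = c u) ⊆ (Z.filter fun v => c v = c u).erase u := by
    intro v hv
    rw [mem_filter] at hv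
    have hvu : v ≠ u := by
      rintro rfl
      rw [e1] at hv
      exact hiu hv.2
    rw [e2 v hvu] at hv
    rw [mem_erase, mem_filter]
    exact ⟨hvu, hv⟩
  have h6 := card_le_card h5
  have h7 : u ∈ Z.filter fun v => c v = c u := mem_filter.2 ⟨hXZ hu, rfl⟩
  rw [card_erase_of_mem h7] at h6
  have h8 := card_pos.2 ⟨u, h7⟩
  have h9 := h2 (c u) huj
  rw [h4] at h3
  omega

open Classical in
/-- the neighbours outside the last class -/
noncomputable def Ng (G : SimpleGraph V) (p : ℕ) (c : V → ℕ) (u : V) : Finset V :=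
  univ.filter fun w => G.Adj u w ∧ c w ≠ p

theorem Ng_card (hc : Good G p c) (hD : ∀ v, dg G v ≤ p + 1) {X : Finset V}
    (hX : Cyc G p c X) {u : V} (hu : u ∈ X) (hup : c u ≠ p) : p - 1 ≤ (Ng G p c u).card := by
  classical
  have h1 : (range p).erase (c u) ⊆ (Ng G p c u).image c := by
    intro i hi
    rw [mem_erase, mem_range] at hi
    obtain ⟨w, h2, h3⟩ := all_nbrs hc hD hX hu hup hi.2 hi.1
    rw [mem_image]
    refine ⟨w, ?_, h3⟩
    unfold Ng
    rw [mem_filter]
    exact ⟨mem_univ _, h2, by omega⟩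
  have h2 := card_le_card h1
  have h3 : (range p).erase (c u) = (range p).erase (c u) := rfl
  rw [card_erase_of_mem (mem_range.2 (lt_of_le_of_ne (hc.le u) hup)), card_range] at h2
  exact h2.trans card_image_le

omit [Fintype V] in
theorem two_outside (hc : ∀ v w, G.Adj v w → c v ≠ c w) {X : Finset V} (hX : Cyc G p c X) :
    ∃ a b, a ≠ b ∧ a ∈ X ∧ b ∈ X ∧ c a ≠ p ∧ c b ≠ p := by
  have key : ∀ v ∈ X, c v = p → ∃ a b, a ≠ b ∧ a ∈ X ∧ b ∈ X ∧ c a ≠ p ∧ c b ≠ p := by
    intro v hv hvp
    obtain ⟨w, hw, w', hw', hne, h1, h2, -⟩ := hX.2 v hv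
    refine ⟨w, w', hne, hw, hw', ?_, ?_⟩
    · rw [← hvp]
      exact (hc v w h1).symm
    · rw [← hvp]
      exact (hc v w' h2).symm
  obtain ⟨v, hv⟩ := hX.1
  by_cases hvp : c v = p
  · exact key v hv hvp
  · obtain ⟨w, hw, w', hw', hne, h1, h2, h3⟩ := hX.2 v hv
    exact key w hw (h3.resolve_left hvp).1

/-- **The structure theorem** -/
theorem hit (hp : 3 ≤ p) (hc : Good G p c) (hD : ∀ v, dg G v ≤ p + 1) :
    ∃ (R : Finset V) (f : V → V), (∀ u ∈ R, c u ≠ p ∧ c (f u) ≠ p ∧ G.Adj u (f u)) ∧
      (∀ u ∈ R, ∀ v ∈ R, f u = f v → u = v) ∧ ∀ X, Cyc G p c X → ∃ u ∈ R, u ∈ X := by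
  classical
  let ι : Type _ := {X : Finset V // MC G p c X}
  let t : ι → Finset V := fun X => (X.1.filter fun u => c u ≠ p).biUnion fun u => Ng G p c u
  have hall : ∀ s : Finset ι, s.card ≤ (s.biUnion t).card := by
    intro s
    set T : Finset V := s.biUnion fun X => X.1.filter fun u => c u ≠ p with hT
    set W : Finset V := s.biUnion t with hW
    have h1 : 2 * s.card ≤ T.card := by
      rw [hT, card_biUnion]
      · calc 2 * s.card = ∑ _X ∈ s, 2 := by rw [sum_const, smul_eq_mul, mul_comm]
          _ ≤ ∑ X ∈ s, (X.1.filter fun u => c u ≠ p).card := by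
            apply sum_le_sum
            intro X _
            obtain ⟨a, b, hne, ha, hb, hap, hbp⟩ := two_outside hc.proper X.2.1
            have h2 : ({a, b} : Finset V) ⊆ X.1.filter fun u => c u ≠ p := by
              intro x hx
              rw [mem_insert, mem_singleton] at hx
              rcases hx with rfl | rfl
              · exact mem_filter.2 ⟨ha, hap⟩
              · exact mem_filter.2 ⟨hb, hbp⟩
            have h3 := card_le_card h2
            rw [card_pair hne] at h3
            exact h3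
      · intro X _ Y _ hne
        have h2 := MC_disj hc hD X.2 Y.2 fun h => hne (Subtype.ext h)
        exact disjoint_filter_filter h2
    have h2 : (p - 1) * T.card ≤ (p + 1) * W.card := by
      have h3 : ∀ u ∈ T, p - 1 ≤ (W.filter fun w => G.Adj u w).card := by
        intro u hu
        rw [hT, mem_biUnion] at hu
        obtain ⟨X, hX, hu⟩ := hu
        rw [mem_filter] at hu
        refine (Ng_card hc hD X.2.1 hu.1 hu.2).trans (card_le_card ?_)
        intro w hw
        rw [mem_filter, hW, mem_biUnion]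
        refine ⟨⟨X, hX, mem_biUnion.2 ⟨u, mem_filter.2 hu, hw⟩⟩, ?_⟩
        unfold Ng at hw
        exact (mem_filter.1 hw).2.1
      calc (p - 1) * T.card = ∑ _u ∈ T, (p - 1) := by rw [sum_const, smul_eq_mul, mul_comm]
        _ ≤ ∑ u ∈ T, (W.filter fun w => G.Adj u w).card := sum_le_sum h3
        _ = ∑ w ∈ W, (T.filter fun u => G.Adj u w).card :=
            sum_card_bipartiteAbove_eq_sum_card_bipartiteBelow _
        _ ≤ ∑ _w ∈ W, (p + 1) := by
            apply sum_le_sum
            intro w _
            refine le_trans (card_le_card ?_) (hD w)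
            intro u hu
            rw [mem_filter] at hu ⊢
            exact ⟨mem_univ _, hu.2.symm⟩
        _ = (p + 1) * W.card := by rw [sum_const, smul_eq_mul, mul_comm]
    obtain ⟨q, rfl⟩ : ∃ q, p = q + 3 := ⟨p - 3, by omega⟩
    have h4 : q + 3 - 1 = q + 2 := by omega
    rw [h4] at h2
    by_contra hcon
    push Not at hcon
    have h5 : (q + 3 + 1) * (W.card + 1) ≤ (q + 3 + 1) * s.card := Nat.mul_le_mul_left _ hcon
    have h6 : (q + 2) * (2 * s.card) ≤ (q + 2) * T.card := Nat.mul_le_mul_left _ h1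
    nlinarith
  obtain ⟨g, hg1, hg2⟩ := (all_card_le_biUnion_card_iff_exists_injective t).1 hall
  have hu : ∀ X : ι, ∃ u, u ∈ X.1 ∧ c u ≠ p ∧ g X ∈ Ng G p c u := by
    intro X
    have := hg2 X
    rw [mem_biUnion] at this
    obtain ⟨u, hu, hu'⟩ := this
    rw [mem_filter] at hu
    exact ⟨u, hu.1, hu.2, hu'⟩
  choose u hu1 hu2 hu3 using hu
  refine ⟨univ.image u, fun v => if h : ∃ X, u X = v then g h.choose else v, ?_, ?_, ?_⟩
  · intro v hv
    rw [mem_image] at hv
    obtain ⟨X, -, hX⟩ := hv
    have hex : ∃ X, u X = v := ⟨X, hX⟩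
    simp only [dif_pos hex]
    have h1 := hu3 hex.choose
    unfold Ng at h1
    rw [mem_filter, hex.choose_spec] at h1
    refine ⟨?_, h1.2.2, h1.2.1⟩
    rw [← hX]
    exact hu2 X
  · intro v hv w hw h
    rw [mem_image] at hv hw
    obtain ⟨X, -, hX⟩ := hv
    obtain ⟨Y, -, hY⟩ := hw
    have hex : ∃ X, u X = v := ⟨X, hX⟩
    have hey : ∃ X, u X = w := ⟨Y, hY⟩
    simp only [dif_pos hex, dif_pos hey] at h
    have h1 := hg1 h
    rw [← hex.choose_spec, h1, hey.choose_spec]
  · intro X hX
    obtain ⟨Y, hY, hYm⟩ := exists_MC _ X rfl hX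
    exact ⟨u ⟨Y, hYm⟩, mem_image_of_mem _ (mem_univ _), hY (hu1 ⟨Y, hYm⟩)⟩

end Pool.T9h45.HY
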