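import Pool.Agent.R661.HY.Konig
import Mathlib

set_option autoImplicit false

/-!
# Labellings of fibred graphs

Let `t : V → Y` and `s : V → Bool` be such that the edges of `G` with ends of the same side go to
edges of `Q` (locally injectively), and the edges with ends of different sides are inside of a
fibre of `t`. A labelling of `Q` with two labels for every vertex can be lifted to `G` if every
vertex has enough labels left.
-/

namespace Pool.Agent.T9h45.HY

open Finset

/-- a proper edge colouring of the bipartite part -/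
theorem konig_side {V : Type} [Fintype V] (G : SimpleGraph V) (s : V → Bool) (d : ℕ)
    (hd : ∀ u, {v | G.Adj u v ∧ s u ≠ s v}.ncard ≤ d) :
    ∃ c : V → V → ℕ, (∀ u v, c u v = c v u) ∧ (∀ u v, G.Adj u v → s u ≠ s v → c u v < d) ∧
      (∀ u v w, G.Adj u v → G.Adj u w → s u ≠ s v → s u ≠ s w → c u v = c u w → v = w) := by
  classical
  let E : Type := {q : V × V // G.Adj q.1 q.2 ∧ s q.1 = false ∧ s q.2 = true}
  obtain ⟨c, hc1, hc2⟩ := Pool.Agent.R661.HY.koenig_le (fun e : E => e.1.1) (fun e : E => e.1.2) d
    (by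
      intro v
      refine le_trans ?_ (hd v)
      rw [← Nat.card_coe_set_eq]
      refine Nat.card_le_card_of_injective
        (fun e : {e : E // e.1.1 = v} => (⟨e.1.1.2, by
          have h := e.2
          have h4 := e.1.2
          rw [h] at h4
          exact ⟨h4.1, by rw [h4.2.1, h4.2.2]; simp⟩⟩ : {u | G.Adj v u ∧ s v ≠ s u})) ?_
      intro e e' he
      have h5 : e.1.1.2 = e'.1.1.2 := congrArg Subtype.val he
      apply Subtype.ext
      apply Subtype.ext
      exact Prod.ext (e.2.trans e'.2.symm) h5)
    (by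
      intro v
      refine le_trans ?_ (hd v)
      rw [← Nat.card_coe_set_eq]
      refine Nat.card_le_card_of_injective
        (fun e : {e : E // e.1.2 = v} => (⟨e.1.1.1, by
          have h := e.2
          have h4 := e.1.2
          rw [h] at h4
          exact ⟨h4.1.symm, by rw [h4.2.1, h4.2.2]; simp⟩⟩ : {u | G.Adj v u ∧ s v ≠ s u})) ?_
      intro e e' he
      have h5 : e.1.1.1 = e'.1.1.1 := congrArg Subtype.val he
      apply Subtype.ext
      apply Subtype.ext
      exact Prod.ext h5 (e.2.trans e'.2.symm))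
  refine ⟨fun u v =>
    if h : G.Adj u v ∧ s u = false ∧ s v = true then (c ⟨(u, v), h⟩ : ℕ) else
      if h : G.Adj v u ∧ s v = false ∧ s u = true then (c ⟨(v, u), h⟩ : ℕ) else 0, ?_, ?_, ?_⟩
  · intro u v
    by_cases h : G.Adj u v ∧ s u = false ∧ s v = true
    · have h' : ¬ (G.Adj v u ∧ s v = false ∧ s u = true) := fun h' => by
        rw [h.2.2] at h'
        simp at h'
      simp only [dif_pos h, dif_neg h']
    · simp only [dif_neg h]
  · intro u v huv hs
    rcases Bool.eq_false_or_eq_true (s u) with h | h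
    · have h3 : s v = false := by
        rw [h] at hs
        exact Bool.eq_false_iff.2 (fun h4 => hs h4.symm)
      have h' : ¬ (G.Adj u v ∧ s u = false ∧ s v = true) := fun h' => by
        rw [h] at h'
        simp at h'
      simp only [dif_neg h', dif_pos (show G.Adj v u ∧ s v = false ∧ s u = true from
        ⟨huv.symm, h3, h⟩)]
      exact (c _).2
    · have h3 : s v = true := by
        rw [h] at hs
        rcases Bool.eq_false_or_eq_true (s v) with h4 | h4
        · exact h4
        · exact absurd h4.symm hs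
      simp only [dif_pos (show G.Adj u v ∧ s u = false ∧ s v = true from ⟨huv, h, h3⟩)]
      exact (c _).2
  · intro u v w huv huw hv hw
    rcases Bool.eq_false_or_eq_true (s u) with h | h
    · have h3 : s v = false := by
        rw [h] at hv
        exact Bool.eq_false_iff.2 (fun h4 => hv h4.symm)
      have h4 : s w = false := by
        rw [h] at hw
        exact Bool.eq_false_iff.2 (fun h4 => hw h4.symm)
      have h' : ∀ x, ¬ (G.Adj u x ∧ s u = false ∧ s x = true) := fun x h' => by
        rw [h] at h'
        simp at h'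
      simp only [dif_neg (h' _), dif_pos (show G.Adj v u ∧ s v = false ∧ s u = true from
        ⟨huv.symm, h3, h⟩), dif_pos (show G.Adj w u ∧ s w = false ∧ s u = true from
        ⟨huw.symm, h4, h⟩)]
      intro he
      have := hc2 _ _ (by rfl) (Fin.ext he)
      exact congrArg (fun q : E => q.1.1) this
    · have h3 : s v = true := by
        rw [h] at hv
        rcases Bool.eq_false_or_eq_true (s v) with h4 | h4
        · exact h4
        · exact absurd h4.symm hv
      have h4 : s w = true := by
        rw [h] at hw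
        rcases Bool.eq_false_or_eq_true (s w) with h4 | h4
        · exact h4
        · exact absurd h4.symm hw
      simp only [dif_pos (show G.Adj u v ∧ s u = false ∧ s v = true from ⟨huv, h, h3⟩),
        dif_pos (show G.Adj u w ∧ s u = false ∧ s w = true from ⟨huw, h, h4⟩)]
      intro he
      have := hc1 _ _ (by rfl) (Fin.ext he)
      exact congrArg (fun q : E => q.1.2) this

/-- the lifting lemma -/
theorem fib {V Y : Type} [Fintype V] [Fintype Y] (G : SimpleGraph V) (Q : SimpleGraph Y)
    (t : V → Y) (s : V → Bool) (D d N : ℕ) (ok : ℕ → ℕ → Prop) (F : Bool → Y → ℕ)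
    (E : Y → Y → ℕ) (hsym : ∀ y y', E y y' = E y' y)
    (hF : ∀ b y, F b y < N) (hE : ∀ y y', Q.Adj y y' → E y y' < N)
    (hFp : ∀ b y y', Q.Adj y y' → F b y ≠ F b y') (hF2 : ∀ y, F false y ≠ F true y)
    (hEp : ∀ y y' y'', Q.Adj y y' → Q.Adj y y'' → y' ≠ y'' → E y y' ≠ E y y'')
    (hok : ∀ b y y', Q.Adj y y' → ok (F b y) (E y y'))
    (hcount : ∀ y, D + d ≤ {l | l < N ∧ ok (F false y) l ∧ ok (F true y) l}.ncard)
    (hQ : ∀ y, (Q.neighborSet y).ncard ≤ D)
    (h1 : ∀ u v, G.Adj u v → s u = s v → Q.Adj (t u) (t v))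
    (h1' : ∀ u v w, G.Adj u v → G.Adj u w → s u = s v → s u = s w → t v = t w → v = w)
    (h2 : ∀ u v, G.Adj u v → s u ≠ s v → t u = t v)
    (hd : ∀ u, {v | G.Adj u v ∧ s u ≠ s v}.ncard ≤ d) :
    ∃ (fV : V → ℕ) (fE : Sym2 V → ℕ),
      (∀ v, fV v < N) ∧ (∀ e ∈ G.edgeSet, fE e < N) ∧
      (∀ u v, G.Adj u v → fV u ≠ fV v) ∧
      (∀ u v w, G.Adj u v → G.Adj u w → v ≠ w → fE s(u, v) ≠ fE s(u, w)) ∧
      (∀ u v, G.Adj u v → ok (fV u) (fE s(u, v))) := by
  classical
  obtain ⟨c, hcs, hcl, hcp⟩ := konig_side G s d hd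
  -- free labels
  have hfree : ∀ y, ∃ g : ℕ → ℕ, (∀ i < d, g i < N ∧ ok (F false y) (g i) ∧ ok (F true y) (g i) ∧
      ∀ y', Q.Adj y y' → g i ≠ E y y') ∧ (∀ i < d, ∀ j < d, g i = g j → i = j) := by
    intro y
    have hfin : {l | l < N ∧ ok (F false y) l ∧ ok (F true y) l}.Finite :=
      (Set.finite_Iio N).subset fun l hl => hl.1
    set A := {l | l < N ∧ ok (F false y) l ∧ ok (F true y) l} with hA
    set B := (fun y' => E y y') '' (Q.neighborSet y) with hB
    have hBc : B.ncard ≤ D := (Set.ncard_image_le (Set.toFinite _)).trans (hQ y)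
    have hAB : d ≤ (A \ B).ncard := by
      have h3 := Set.le_ncard_sdiff B A (Set.toFinite _)
      have h4 : D + d ≤ A.ncard := hcount y
      omega
    obtain ⟨T, hT1, hT2⟩ := Set.exists_subset_card_eq hAB
    have hTf : T.Finite := (hfin.subset (Set.sdiff_subset)).subset hT1
    obtain ⟨f, hf⟩ : ∃ f : Fin d → ℕ, Function.Injective f ∧ ∀ i, f i ∈ T := by
      have : Fintype T := hTf.fintype
      have e : Fintype.card T = d := by rw [← hT2, ← Nat.card_coe_set_eq, Nat.card_eq_fintype_card]
      let φ := (Fintype.equivFinOfCardEq e).symm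
      exact ⟨fun i => (φ i : ℕ), fun i j h => φ.injective (Subtype.ext h), fun i => (φ i).2⟩
    refine ⟨fun i => if h : i < d then f ⟨i, h⟩ else 0, ?_, ?_⟩
    · intro i hi
      simp only [dif_pos hi]
      obtain ⟨⟨g1, g2, g3⟩, g4⟩ := hT1 (hf.2 ⟨i, hi⟩)
      exact ⟨g1, g2, g3, fun y' hy' h => g4 ⟨y', hy', h.symm⟩⟩
    · intro i hi j hj h
      simp only [dif_pos hi, dif_pos hj] at h
      simpa using hf.1 h
  choose g hg1 hg2 using hfree
  have hst : ∀ b : Bool, ∀ y l, ok (F false y) l → ok (F true y) l → ok (F b y) l := by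
    intro b y l h3 h4
    cases b
    · exact h3
    · exact h4
  let f : V → V → ℕ := fun u v => if s u = s v then E (t u) (t v) else g (t u) (c u v)
  -- symmetric on edges
  let fs : V → V → ℕ := fun u v => if G.Adj u v then f u v else 0
  have hfs : ∀ u v, fs u v = fs v u := by
    intro u v
    by_cases h : G.Adj u v
    · simp only [fs, if_pos h, if_pos h.symm, f]
      by_cases h3 : s u = s v
      · rw [if_pos h3, if_pos h3.symm, hsym]
      · rw [if_neg h3, if_neg (fun h4 => h3 h4.symm), h2 u v h h3, hcs]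
    · have h' : ¬ G.Adj v u := fun h' => h h'.symm
      simp only [fs, if_neg h, if_neg h']
  refine ⟨fun v => F (s v) (t v), Sym2.lift ⟨fs, hfs⟩, fun v => hF _ _, ?_, ?_, ?_, ?_⟩
  · intro e he
    induction e using Sym2.ind with
    | _ u v =>
      rw [SimpleGraph.mem_edgeSet] at he
      simp only [Sym2.lift_mk, fs, if_pos he, f]
      by_cases h3 : s u = s v
      · rw [if_pos h3]
        exact hE _ _ (h1 u v he h3)
      · rw [if_neg h3]
        exact (hg1 _ _ (hcl u v he h3)).1
  · intro u v huv
    by_cases h3 : s u = s v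
    · show F (s u) (t u) ≠ F (s v) (t v)
      rw [← h3]
      exact hFp _ _ _ (h1 u v huv h3)
    · show F (s u) (t u) ≠ F (s v) (t v)
      rw [← h2 u v huv h3]
      rcases Bool.eq_false_or_eq_true (s u) with h | h
      · have h4 : s v = false := by
          rw [h] at h3
          exact Bool.eq_false_iff.2 (fun h5 => h3 h5.symm)
        rw [h, h4]
        exact (hF2 _).symm
      · have h4 : s v = true := by
          rw [h] at h3
          rcases Bool.eq_false_or_eq_true (s v) with h5 | h5
          · exact h5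
          · exact absurd h5.symm h3
        rw [h, h4]
        exact hF2 _
  · intro u v w huv huw hvw
    simp only [Sym2.lift_mk, fs, if_pos huv, if_pos huw, f]
    by_cases h3 : s u = s v
    · by_cases h4 : s u = s w
      · rw [if_pos h3, if_pos h4]
        exact hEp _ _ _ (h1 u v huv h3) (h1 u w huw h4)
          (fun h => hvw (h1' u v w huv huw h3 h4 h))
      · rw [if_pos h3, if_neg h4]
        exact fun h => (hg1 (t u) _ (hcl u w huw h4)).2.2.2 _ (h1 u v huv h3) h.symm
    · by_cases h4 : s u = s w
      · rw [if_neg h3, if_pos h4]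
        exact (hg1 (t u) _ (hcl u v huv h3)).2.2.2 _ (h1 u w huw h4)
      · rw [if_neg h3, if_neg h4]
        intro h
        have h5 := hg2 (t u) _ (hcl u v huv h3) _ (hcl u w huw h4) h
        exact hvw (hcp u v w huv huw h3 h4 h5)
  · intro u v huv
    simp only [Sym2.lift_mk, fs, if_pos huv, f]
    by_cases h3 : s u = s v
    · rw [if_pos h3]
      exact hok _ _ _ (h1 u v huv h3)
    · rw [if_neg h3]
      have h4 := hg1 (t u) _ (hcl u v huv h3)
      exact hst _ _ _ h4.2.1 h4.2.2.1

end Pool.Agent.T9h45.HY
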