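import Pool.Agent.Q6.CI.Vizing

/-!
# Fournier's theorem

If the vertices of degree `D = Δ(G)` induce a forest in `G`, then `G` has a proper edge colouring with
`D` colours. (Forest: every nonempty set `X` of vertices of degree `D` has an element with at most
one neighbour in `X`.)
-/

set_option autoImplicit false

namespace Pool.T9h45.HY

open Pool.Q6.CI Pool.Q11.TwoEnd Finset

variable {V : Type*} [Fintype V]

theorem fournier_aux (D : ℕ) : ∀ (n : ℕ) (G : SimpleGraph V), {v | dg G v = D}.ncard = n →
    (∀ v, dg G v ≤ D) →
    (∀ X : Finset V, X.Nonempty → (∀ v ∈ X, dg G v = D) →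
      ∃ v ∈ X, ∀ w ∈ X, ∀ w' ∈ X, G.Adj v w → G.Adj v w' → w = w') → EC G D := by
  classical
  intro n
  induction n using Nat.strong_induction_on with
  | _ n ih =>
    intro G hn hD hX
    by_cases hD0 : D = 0
    · subst hD0
      have hno : ∀ v w, ¬ G.Adj v w := by
        intro v w h
        have h1 := hD v
        unfold dg at h1
        have h2 : w ∈ univ.filter fun w => G.Adj v w := by
          rw [mem_filter]
          exact ⟨mem_univ _, h⟩
        have h3 := card_pos.2 ⟨w, h2⟩
        omega
      exact ⟨fun _ _ => 0, fun v w h => absurd h (hno v w), fun v w h => absurd h (hno v w),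
        fun v w w' h => absurd h (hno v w)⟩
    by_cases hcore : (univ.filter fun v => dg G v = D).Nonempty
    · obtain ⟨v, hv, hvX⟩ := hX _ hcore (fun v hv => (mem_filter.1 hv).2)
      rw [mem_filter] at hv
      refine ext_vertex (v := v) (hD v) (fun w _ => hD w) ?_ ?_
      · intro w w' hw hw' h1 h2
        exact hvX w (mem_filter.2 ⟨mem_univ _, h1⟩) w' (mem_filter.2 ⟨mem_univ _, h2⟩) hw hw'
      · have hle : ∀ w, dg (delV G v) w ≤ dg G w := fun w => dg_mono (delV_le G v) w
        refine ih _ ?_ (delV G v) rfl (fun w => (hle w).trans (hD w)) ?_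
        · rw [← hn]
          refine Set.ncard_lt_ncard ⟨?_, ?_⟩ (Set.toFinite _)
          · intro w hw
            have h1 : dg (delV G v) w = D := hw
            have h2 := hle w
            have h3 := hD w
            show dg G w = D
            omega
          · intro h
            have h1 : dg (delV G v) v = D := h (show dg G v = D from hv.2)
            have h2 : dg (delV G v) v = 0 := by
              unfold dg
              rw [card_eq_zero, filter_eq_empty_iff]
              intro w _ h
              exact h.2.1 rfl
            omega
        · intro X hXn hXD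
          obtain ⟨u, hu, huX⟩ := hX X hXn (fun w hw => by
            have h1 := hXD w hw
            have h2 := hle w
            have h3 := hD w
            omega)
          exact ⟨u, hu, fun w hw w' hw' h h' => huX w hw w' hw' h.1 h'.1⟩
    · have hlt : ∀ v, dg G v ≤ D - 1 := by
        intro v
        have h1 := hD v
        have h2 : dg G v ≠ D := fun h => hcore ⟨v, mem_filter.2 ⟨mem_univ _, h⟩⟩
        omega
      have h3 := vizing hlt
      have h4 : D - 1 + 1 = D := by omega
      rwa [h4] at h3

/-- **Fournier's theorem** -/
theorem fournier (D : ℕ) (G : SimpleGraph V) (hD : ∀ v, dg G v ≤ D)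
    (hX : ∀ X : Finset V, X.Nonempty → (∀ v ∈ X, dg G v = D) →
      ∃ v ∈ X, ∀ w ∈ X, ∀ w' ∈ X, G.Adj v w → G.Adj v w' → w = w') : EC G D :=
  fournier_aux D _ G rfl hD hX

end Pool.T9h45.HY
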