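import Pool.Agent.T9h45.HY.Wide

set_option autoImplicit false

/-!
# Circular labellings of products: the factors
-/

namespace Pool.Agent.T9h45.HY

open Finset

/-- an upward labelling (function form) -/
def Up {V : Type} (G : SimpleGraph V) (D : ℕ) : Prop :=
  ∃ (F : V → ℤ) (E : V → V → ℤ), (∀ u v, E u v = E v u) ∧
    (∀ u v, G.Adj u v → F u ≠ F v ∧ F u ≤ E u v ∧ E u v ≤ F u + D) ∧
    (∀ u v w, G.Adj u v → G.Adj u w → E u v = E u w → v = w)

/-- a two-sided labelling (function form) -/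
def Two {V : Type} (G : SimpleGraph V) (D c : ℕ) : Prop :=
  ∃ (b : V → ℤ) (s : V → Bool) (e : V → V → ℤ), (∀ u v, e u v = e v u) ∧
    (∀ u v, G.Adj u v → (b u ≠ b v ∨ s u ≠ s v) ∧ b u ≤ e u v ∧ e u v < b u + D ∧
      (s u ≠ s v → |b u - b v| ≤ c)) ∧
    (∀ u v w, G.Adj u v → G.Adj u w → e u v = e u w → v = w)

/-- colourable such that vertices at distance at most two have different colours -/
def Sq {V : Type} (G : SimpleGraph V) (n : ℕ) : Prop :=
  ∃ c : V → Fin n, (∀ u v, G.Adj u v → c u ≠ c v) ∧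
    ∀ u v w, G.Adj u v → G.Adj u w → v ≠ w → c v ≠ c w

theorem up_sq {V : Type} (G : SimpleGraph V) (D : ℕ) (h : Sq G (D + 1)) : Up G D := by
  obtain ⟨c, h1, h2⟩ := h
  refine ⟨fun v => ((c v : ℕ) : ℤ), fun u v => ((c u : ℕ) : ℤ) + ((c v : ℕ) : ℤ),
    fun u v => add_comm _ _, ?_, ?_⟩
  · intro u v huv
    have h3 := h1 u v huv
    have h4 : (c u : ℕ) ≠ (c v : ℕ) := fun h => h3 (Fin.ext h)
    have h5 := (c v).2
    beta_reduce
    refine ⟨by exact_mod_cast h4, by omega, by omega⟩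
  · intro u v w hv hw h3
    beta_reduce at h3
    by_contra hvw
    have h4 : ((c v : ℕ) : ℤ) = ((c w : ℕ) : ℤ) := by linarith
    exact h2 u v w hv hw hvw (Fin.ext (by exact_mod_cast h4))

theorem side_konig {V : Type} [Fintype V] (G : SimpleGraph V) (C : G.Coloring (Fin 2)) (D : ℕ)
    (hD : ∀ v, (G.neighborSet v).ncard ≤ D) :
    ∃ c : V → V → ℕ, (∀ u v, c u v = c v u) ∧ (∀ u v, G.Adj u v → c u v < D) ∧
      (∀ u v w, G.Adj u v → G.Adj u w → c u v = c u w → v = w) := by
  classical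
  have hC : ∀ a b : Fin 2, decide (a = 0) = decide (b = 0) → a = b := by decide
  have hs : ∀ u v, G.Adj u v → decide (C u = 0) ≠ decide (C v = 0) := fun u v h h' =>
    C.valid h (hC _ _ h')
  obtain ⟨c, c1, c2, c3⟩ := konig_side G (fun v => decide (C v = 0)) D (fun u =>
    le_trans (Set.ncard_le_ncard (fun v hv => hv.1) (Set.toFinite _)) (hD u))
  exact ⟨c, c1, fun u v h => c2 u v h (hs u v h), fun u v w hv hw => c3 u v w hv hw (hs u v hv)
    (hs u w hw)⟩

theorem up_bip {V : Type} [Fintype V] (G : SimpleGraph V) (h : G.Colorable 2) (D : ℕ)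
    (hD : ∀ v, (G.neighborSet v).ncard ≤ D) : Up G D := by
  classical
  obtain ⟨C⟩ := h
  obtain ⟨c, c1, c2, c3⟩ := side_konig G C D hD
  refine ⟨fun v => ((C v : ℕ) : ℤ), fun u v => (c u v : ℤ) + 1,
    fun u v => by beta_reduce; rw [c1], ?_, ?_⟩
  · intro u v huv
    have h1 := c2 u v huv
    have h2 := (C u).2
    have h3 : (C u : ℕ) ≠ (C v : ℕ) := fun h => C.valid huv (Fin.ext h)
    beta_reduce
    exact ⟨by exact_mod_cast h3, by omega, by omega⟩
  · intro u v w hv hw h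
    beta_reduce at h
    exact c3 u v w hv hw (by exact_mod_cast (add_right_cancel h))

theorem two_bip {V : Type} [Fintype V] (G : SimpleGraph V) (h : G.Colorable 2) (D c : ℕ)
    (hD : ∀ v, (G.neighborSet v).ncard ≤ D) : Two G D c := by
  classical
  obtain ⟨C⟩ := h
  obtain ⟨k, c1, c2, c3⟩ := side_konig G C D hD
  have hC : ∀ a b : Fin 2, decide (a = 0) = decide (b = 0) → a = b := by decide
  refine ⟨fun _ => 0, fun v => decide (C v = 0), fun u v => (k u v : ℤ),
    fun u v => by beta_reduce; rw [c1], ?_, ?_⟩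
  · intro u v huv
    have h1 := c2 u v huv
    beta_reduce
    refine ⟨Or.inr fun h' => C.valid huv (hC _ _ h'), by omega, by omega, fun _ => by simp⟩
  · intro u v w hv hw h
    beta_reduce at h
    exact c3 u v w hv hw (by exact_mod_cast h)

/-- the labelling of the edges of the complete graph with `2 m` vertices -/
def K2 (m : ℕ) (x y : ℕ) : ℕ :=
  if x / 2 = y / 2 ∨ x % 2 = y % 2 then
    (if x / 2 + y / 2 < m then x / 2 + y / 2 else x / 2 + y / 2 + m - 1)
  else if x % 2 < y % 2 then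
    (if x / 2 < y / 2 then m - 1 + (y / 2 - x / 2) else m - 1 + (m + y / 2 - x / 2))
  else
    (if y / 2 < x / 2 then m - 1 + (x / 2 - y / 2) else m - 1 + (m + x / 2 - y / 2))

theorem K2_symm (m x y : ℕ) : K2 m x y = K2 m y x := by
  unfold K2
  split_ifs <;> omega

theorem K2_range (m x y : ℕ) (hx : x < 2 * m) (hy : y < 2 * m) :
    x / 2 ≤ K2 m x y ∧ K2 m x y < x / 2 + (2 * m - 1) := by
  unfold K2
  split_ifs <;> omega

theorem K2_inj (m x y z : ℕ) (hx : x < 2 * m) (hy : y < 2 * m) (hz : z < 2 * m) (hxy : x ≠ y)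
    (hxz : x ≠ z) (h : K2 m x y = K2 m x z) : y = z := by
  unfold K2 at h
  split_ifs at h <;> omega

theorem two_sq {V : Type} (G : SimpleGraph V) (D c : ℕ) (h : Sq G (D + 1)) (hodd : Odd D)
    (hc : D ≤ 2 * c + 1) : Two G D c := by
  obtain ⟨k, h1, h2⟩ := h
  obtain ⟨m', hm'⟩ := hodd
  have hm : D + 1 = 2 * (m' + 1) := by omega
  have hk : ∀ v, (k v : ℕ) < 2 * (m' + 1) := fun v => by
    have := (k v).2
    omega
  refine ⟨fun v => (((k v : ℕ) / 2 : ℕ) : ℤ), fun v => decide ((k v : ℕ) % 2 = 1),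
    fun u v => ((K2 (m' + 1) (k u) (k v) : ℕ) : ℤ),
    fun u v => by beta_reduce; rw [K2_symm], ?_, ?_⟩
  · intro u v huv
    have h3 := h1 u v huv
    have h4 : (k u : ℕ) ≠ (k v : ℕ) := fun h => h3 (Fin.ext h)
    obtain ⟨h5, h6⟩ := K2_range (m' + 1) (k u) (k v) (hk u) (hk v)
    have h7 := hk u
    have h8 := hk v
    beta_reduce
    refine ⟨?_, by exact_mod_cast h5, by omega, ?_⟩
    · by_cases h9 : (k u : ℕ) / 2 = (k v : ℕ) / 2
      · right
        intro h10
        have h11 : (k u : ℕ) % 2 = 1 ↔ (k v : ℕ) % 2 = 1 := by simpa using h10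
        omega
      · left
        exact_mod_cast h9
    · intro _
      rw [abs_le]
      constructor <;> omega
  · intro u v w hv hw h
    beta_reduce at h
    by_contra hvw
    have h3 : (k u : ℕ) ≠ (k v : ℕ) := fun h => h1 u v hv (Fin.ext h)
    have h4 : (k u : ℕ) ≠ (k w : ℕ) := fun h => h1 u w hw (Fin.ext h)
    have h5 := K2_inj (m' + 1) (k u) (k v) (k w) (hk u) (hk v) (hk w) h3 h4 (by exact_mod_cast h)
    exact h2 u v w hv hw hvw (Fin.ext h5)

end Pool.Agent.T9h45.HY
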