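import Pool.Agent.T9h45.HY.Fib
import Pool.Agent.R661.HY.Multi

set_option autoImplicit false

/-!
# Circular labellings of products
-/

namespace Pool.Agent.T9h45.HY

open Finset

/-- distances of residues -/
theorem dist_int (N p : ℕ) (X Y r : ℤ) (hp : 1 ≤ p) (hN : 0 < N) (h : (N : ℤ) ∣ Y - X - r)
    (h1 : (p : ℤ) ≤ r) (h2 : r + p ≤ N) :
    (p : ℤ) ≤ |(((X % N).toNat : ℕ) : ℤ) - (((Y % N).toNat : ℕ) : ℤ)| ∧
      |(((X % N).toNat : ℕ) : ℤ) - (((Y % N).toNat : ℕ) : ℤ)| ≤ (N : ℤ) - p := by
  have hN' : (0 : ℤ) < N := by exact_mod_cast hN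
  have hx0 := Int.emod_nonneg X hN'.ne'
  have hx1 := Int.emod_lt_of_pos X hN'
  have hy0 := Int.emod_nonneg Y hN'.ne'
  have hy1 := Int.emod_lt_of_pos Y hN'
  rw [Int.toNat_of_nonneg hx0, Int.toNat_of_nonneg hy0]
  have hd : (N : ℤ) ∣ (Y % N) - (X % N) - r := by
    have e1 := Int.emod_add_mul_ediv X N
    have e2 := Int.emod_add_mul_ediv Y N
    have : (Y % N) - (X % N) - r = (Y - X - r) - N * (Y / N) + N * (X / N) := by linarith
    rw [this]
    exact dvd_add (dvd_sub h (Dvd.intro _ rfl)) (Dvd.intro _ rfl)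
  generalize X % N = x at *
  generalize Y % N = y at *
  obtain ⟨k, hk⟩ := hd
  have hk1 : k < 1 := by
    by_contra hcon
    have : (N : ℤ) * 1 ≤ N * k := mul_le_mul_of_nonneg_left (by omega) hN'.le
    omega
  have hk2 : -2 < k := by
    by_contra hcon
    have : (N : ℤ) * k ≤ N * (-2) := mul_le_mul_of_nonneg_left (by omega) hN'.le
    omega
  have hk3 : k = 0 ∨ k = -1 := by omega
  rcases hk3 with rfl | rfl
  · rw [abs_of_nonpos (by omega)]
    omega
  · rw [abs_of_nonneg (by omega)]
    omega

theorem toNat_inj (N : ℕ) (X Y : ℤ) (hN : 0 < N) (h : (X % N).toNat = (Y % N).toNat) :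
    (N : ℤ) ∣ X - Y := by
  have hN' : (0 : ℤ) < N := by exact_mod_cast hN
  have hx0 := Int.emod_nonneg X hN'.ne'
  have hy0 := Int.emod_nonneg Y hN'.ne'
  have h1 : X % N = Y % N := by omega
  exact Int.ModEq.dvd (Eq.symm h1)

theorem zero_of_dvd (N : ℕ) (X : ℤ) (h : (N : ℤ) ∣ X) (h1 : X < N) (h2 : -(N : ℤ) < X) : X = 0 := by
  rcases lt_trichotomy X 0 with h3 | h3 | h3
  · have := Int.le_of_dvd (by omega) ((dvd_neg).2 h)
    omega
  · exact h3
  · have := Int.le_of_dvd h3 h
    omega

/-- the labelling of a graph with two kinds of edges -/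
theorem core {V : Type} (Γ : SimpleGraph V) (D1 D2 p : ℕ) (hp : 1 ≤ p) (F b : V → ℤ) (s : V → Bool)
    (E e : V → V → ℤ) (hE : ∀ u v, E u v = E v u) (he : ∀ u v, e u v = e v u)
    (h1 : ∀ u v, Γ.Adj u v → F u ≠ F v → b u = b v ∧ s u = s v ∧ F u ≤ E u v ∧
      E u v ≤ F u + D1)
    (h2 : ∀ u v, Γ.Adj u v → F u = F v → (b u ≠ b v ∨ s u ≠ s v) ∧ b u ≤ e u v ∧
      e u v < b u + D2 ∧ (s u ≠ s v → |b u - b v| ≤ D1))
    (p1 : ∀ u v w, Γ.Adj u v → Γ.Adj u w → F u ≠ F v → F u ≠ F w → E u v = E u w → v = w)
    (p2 : ∀ u v w, Γ.Adj u v → Γ.Adj u w → F u = F v → F u = F w → e u v = e u w → v = w) :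
    Pool.Agent.R661.HY.Circ Γ p (D1 + D2 + 2 * p) := by
  classical
  set N := D1 + D2 + 2 * p with hN
  have hN0 : 0 < N := by omega
  have hNz : (N : ℤ) = D1 + D2 + 2 * p := by rw [hN]; push_cast; ring
  let X : V → ℤ := fun u => F u + b u + (if s u then (D1 : ℤ) + 1 else 0)
  let Y : V → V → ℤ := fun u v =>
    if F u = F v then e u v + F u + p + D1 + 1
    else E u v + b u + (if s u then 1 - (p : ℤ) else p)
  let fs : V → V → ℤ := fun u v => if Γ.Adj u v then Y u v else 0
  have hfs : ∀ u v, fs u v = fs v u := by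
    intro u v
    by_cases h : Γ.Adj u v
    · simp only [fs, if_pos h, if_pos h.symm, Y]
      by_cases h3 : F u = F v
      · rw [if_pos h3, if_pos h3.symm, he, h3]
      · obtain ⟨h4, h5, -⟩ := h1 u v h h3
        have h3' : ¬ F v = F u := fun h4 => h3 h4.symm
        rw [if_neg h3, if_neg h3', hE u v, h4, h5]
    · have h' : ¬ Γ.Adj v u := fun h' => h h'.symm
      simp only [fs, if_neg h, if_neg h']
  -- the offset
  have hoff : ∀ u v, Γ.Adj u v → ∃ r : ℤ, (p : ℤ) ≤ r ∧ r + p ≤ N ∧ (N : ℤ) ∣ Y u v - X u - r ∧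
      (F u = F v → r = e u v - b u + p + (if s u then 0 else (D1 : ℤ) + 1)) ∧
      (F u ≠ F v → r = E u v - F u + p + (if s u then (D2 : ℤ) else 0)) := by
    intro u v h
    by_cases h3 : F u = F v
    · obtain ⟨h4, h5, h6, h7⟩ := h2 u v h h3
      refine ⟨e u v - b u + p + (if s u then 0 else (D1 : ℤ) + 1), ?_, ?_, ?_, fun _ => rfl,
        fun h8 => absurd h3 h8⟩
      · split_ifs <;> omega
      · split_ifs <;> omega
      · simp only [Y, X, if_pos h3]
        have : e u v + F u + ↑p + ↑D1 + 1 - (F u + b u + (if s u = true then (D1 : ℤ) + 1 else 0)) -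
            (e u v - b u + ↑p + (if s u = true then 0 else (D1 : ℤ) + 1)) = 0 := by
          split_ifs <;> ring
        rw [this]
        exact dvd_zero _
    · obtain ⟨h4, h5, h6, h7⟩ := h1 u v h h3
      refine ⟨E u v - F u + p + (if s u then (D2 : ℤ) else 0), ?_, ?_, ?_,
        fun h8 => absurd h8 h3, fun _ => rfl⟩
      · split_ifs <;> omega
      · split_ifs <;> omega
      · simp only [Y, X, if_neg h3]
        by_cases hs : s u = true
        · have : E u v + b u + (if s u = true then 1 - (p : ℤ) else p) -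
              (F u + b u + (if s u = true then (D1 : ℤ) + 1 else 0)) -
              (E u v - F u + ↑p + (if s u = true then (D2 : ℤ) else 0)) = -(N : ℤ) := by
            rw [if_pos hs, if_pos hs, if_pos hs, hNz]
            ring
          rw [this]
          exact (dvd_neg).2 (dvd_refl _)
        · have : E u v + b u + (if s u = true then 1 - (p : ℤ) else p) -
              (F u + b u + (if s u = true then (D1 : ℤ) + 1 else 0)) -
              (E u v - F u + ↑p + (if s u = true then (D2 : ℤ) else 0)) = 0 := by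
            rw [if_neg hs, if_neg hs, if_neg hs]
            ring
          rw [this]
          exact dvd_zero _
  have hbd : ∀ Z : ℤ, (Z % N).toNat < N := by
    intro Z
    have hN' : (0 : ℤ) < N := by exact_mod_cast hN0
    have := Int.emod_lt_of_pos Z hN'
    have := Int.emod_nonneg Z hN'.ne'
    omega
  refine ⟨fun v => (X v % N).toNat, Sym2.lift ⟨fun u v => (fs u v % N).toNat, fun u v =>
    congrArg (fun z : ℤ => (z % (N : ℤ)).toNat) (hfs u v)⟩, fun v => hbd _, ?_, ?_, ?_, ?_⟩
  · intro e' he'
    induction e' using Sym2.ind with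
    | _ u v => exact hbd _
  · intro u v h heq
    have h3 := toNat_inj N _ _ hN0 heq
    by_cases h4 : F u = F v
    · obtain ⟨h5, h6, h7, h8⟩ := h2 u v h h4
      obtain ⟨h5', h6', h7', h8'⟩ := h2 v u h.symm h4.symm
      rw [he v u] at h6' h7'
      by_cases h9 : s u = s v
      · have e1 : X u - X v = b u - b v := by
          simp only [X, h4, h9]
          ring
        rw [e1] at h3
        have := zero_of_dvd N _ h3 (by omega) (by omega)
        rcases h5 with h5 | h5
        · omega
        · exact h5 h9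
      · have h10 := h8 h9
        rw [abs_le] at h10
        rcases Bool.eq_false_or_eq_true (s u) with hu | hu
        · have hv : s v = false := by
            rw [hu] at h9
            exact Bool.eq_false_iff.2 (fun h5 => h9 h5.symm)
          have e1 : X u - X v = b u - b v + (D1 + 1) := by
            simp only [X, h4, hu, hv]
            simp
            ring
          rw [e1] at h3
          have := zero_of_dvd N _ h3 (by omega) (by omega)
          omega
        · have hv : s v = true := by
            rw [hu] at h9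
            rcases Bool.eq_false_or_eq_true (s v) with h5 | h5
            · exact h5
            · exact absurd h5.symm h9
          have e1 : X u - X v = b u - b v - (D1 + 1) := by
            simp only [X, h4, hu, hv]
            simp
            ring
          rw [e1] at h3
          have := zero_of_dvd N _ h3 (by omega) (by omega)
          omega
    · obtain ⟨h5, h6, h7, h8⟩ := h1 u v h h4
      obtain ⟨h5', h6', h7', h8'⟩ := h1 v u h.symm (fun h' => h4 h'.symm)
      rw [hE v u] at h7' h8'
      have e1 : X u - X v = F u - F v := by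
        simp only [X, h5, h6]
        ring
      rw [e1] at h3
      have := zero_of_dvd N _ h3 (by omega) (by omega)
      omega
  · intro u v w hv hw hvw heq
    simp only [Sym2.lift_mk, fs, if_pos hv, if_pos hw] at heq
    have h3 := toNat_inj N _ _ hN0 heq
    obtain ⟨r, r1, r2, r3, r4, r5⟩ := hoff u v hv
    obtain ⟨q, q1, q2, q3, q4, q5⟩ := hoff u w hw
    have h4 : (N : ℤ) ∣ r - q := by
      have : r - q = (Y u v - Y u w) - (Y u v - X u - r) + (Y u w - X u - q) := by ring
      rw [this]
      exact dvd_add (dvd_sub h3 r3) q3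
    have h5 : r - q = 0 := zero_of_dvd N _ h4 (by omega) (by omega)
    by_cases hFv : F u = F v
    · by_cases hFw : F u = F w
      · rw [r4 hFv, q4 hFw] at h5
        exact hvw (p2 u v w hv hw hFv hFw (by linarith))
      · rw [r4 hFv, q5 hFw] at h5
        obtain ⟨k1, k2, k3, k4⟩ := h2 u v hv hFv
        obtain ⟨l1, l2, l3, l4⟩ := h1 u w hw hFw
        split_ifs at h5 <;> omega
    · by_cases hFw : F u = F w
      · rw [r5 hFv, q4 hFw] at h5
        obtain ⟨k1, k2, k3, k4⟩ := h1 u v hv hFv
        obtain ⟨l1, l2, l3, l4⟩ := h2 u w hw hFw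
        split_ifs at h5 <;> omega
      · rw [r5 hFv, q5 hFw] at h5
        exact hvw (p1 u v w hv hw hFv hFw (by linarith))
  · intro u v h
    obtain ⟨r, r1, r2, r3, -⟩ := hoff u v h
    simp only [Sym2.lift_mk, fs, if_pos h]
    exact dist_int N p (X u) (Y u v) r hp hN0 r3 r1 r2

end Pool.Agent.T9h45.HY
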